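import Pool.Agent.H21Z.NR.Split

set_option autoImplicit false

namespace Pool.Agent.H21Z.NR

theorem c_rel : (tree.all fun _ v => rel v) = true := by decide +kernel

theorem c_end : (tree.all fun n v => Nat.beq (fld 3 v) 0 || !(bad (dec n) 0)) = true := by
  decide +kernel

theorem start_cyc : ∀ j ∈ [1, 3, 4, 5, 6, 7, 8], 0 < W j ⟨2, 4, 5, 6, 7, 0, 0⟩ := by
  decide +kernel

theorem start_leg : ∀ k ∈ [0, 1, 2, 3], W 0 ⟨k, 4, 5, 6, 7, 0, 0⟩ = 1 := by
  decide +kernel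

theorem c_st_t : top.all (cp 1 1 209 100 4 4 true) = true := by decide +kernel
theorem c_st_0 : (tr0.all (cp 1 1 209 100 4 4 true) &&
    tr1.all (cp 1 1 209 100 4 4 true) &&
    tr2.all (cp 1 1 209 100 4 4 true) &&
    tr3.all (cp 1 1 209 100 4 4 true)) = true := by
  decide +kernel
theorem c_st_1 : (tr4.all (cp 1 1 209 100 4 4 true) &&
    tr5.all (cp 1 1 209 100 4 4 true) &&
    tr6.all (cp 1 1 209 100 4 4 true) &&
    tr7.all (cp 1 1 209 100 4 4 true)) = true := by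
  decide +kernel
theorem c_st_2 : (tr8.all (cp 1 1 209 100 4 4 true) &&
    tr9.all (cp 1 1 209 100 4 4 true) &&
    tr10.all (cp 1 1 209 100 4 4 true) &&
    tr11.all (cp 1 1 209 100 4 4 true)) = true := by
  decide +kernel
theorem c_st_3 : (tr12.all (cp 1 1 209 100 4 4 true) &&
    tr13.all (cp 1 1 209 100 4 4 true) &&
    tr14.all (cp 1 1 209 100 4 4 true) &&
    tr15.all (cp 1 1 209 100 4 4 true)) = true := by
  decide +kernel
theorem c_st_4 : (tr16.all (cp 1 1 209 100 4 4 true) &&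
    tr17.all (cp 1 1 209 100 4 4 true) &&
    tr18.all (cp 1 1 209 100 4 4 true) &&
    tr19.all (cp 1 1 209 100 4 4 true)) = true := by
  decide +kernel
theorem c_st_5 : (tr20.all (cp 1 1 209 100 4 4 true) &&
    tr21.all (cp 1 1 209 100 4 4 true) &&
    tr22.all (cp 1 1 209 100 4 4 true) &&
    tr23.all (cp 1 1 209 100 4 4 true)) = true := by
  decide +kernel
theorem c_st_6 : (tr24.all (cp 1 1 209 100 4 4 true) &&
    tr25.all (cp 1 1 209 100 4 4 true) &&
    tr26.all (cp 1 1 209 100 4 4 true) &&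
    tr27.all (cp 1 1 209 100 4 4 true)) = true := by
  decide +kernel
theorem c_st_7 : (tr28.all (cp 1 1 209 100 4 4 true) &&
    tr29.all (cp 1 1 209 100 4 4 true) &&
    tr30.all (cp 1 1 209 100 4 4 true) &&
    tr31.all (cp 1 1 209 100 4 4 true)) = true := by
  decide +kernel
theorem c_st : chk 1 1 209 100 4 4 true = true :=
  split (cp 1 1 209 100 4 4 true) c_st_t c_st_0 c_st_1 c_st_2 c_st_3 c_st_4 c_st_5 c_st_6 c_st_7

theorem c_t6_t : top.all (cp 1 8 47 1 4 4 true) = true := by decide +kernel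
theorem c_t6_0 : (tr0.all (cp 1 8 47 1 4 4 true) &&
    tr1.all (cp 1 8 47 1 4 4 true) &&
    tr2.all (cp 1 8 47 1 4 4 true) &&
    tr3.all (cp 1 8 47 1 4 4 true)) = true := by
  decide +kernel
theorem c_t6_1 : (tr4.all (cp 1 8 47 1 4 4 true) &&
    tr5.all (cp 1 8 47 1 4 4 true) &&
    tr6.all (cp 1 8 47 1 4 4 true) &&
    tr7.all (cp 1 8 47 1 4 4 true)) = true := by
  decide +kernel
theorem c_t6_2 : (tr8.all (cp 1 8 47 1 4 4 true) &&
    tr9.all (cp 1 8 47 1 4 4 true) &&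
    tr10.all (cp 1 8 47 1 4 4 true) &&
    tr11.all (cp 1 8 47 1 4 4 true)) = true := by
  decide +kernel
theorem c_t6_3 : (tr12.all (cp 1 8 47 1 4 4 true) &&
    tr13.all (cp 1 8 47 1 4 4 true) &&
    tr14.all (cp 1 8 47 1 4 4 true) &&
    tr15.all (cp 1 8 47 1 4 4 true)) = true := by
  decide +kernel
theorem c_t6_4 : (tr16.all (cp 1 8 47 1 4 4 true) &&
    tr17.all (cp 1 8 47 1 4 4 true) &&
    tr18.all (cp 1 8 47 1 4 4 true) &&
    tr19.all (cp 1 8 47 1 4 4 true)) = true := by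
  decide +kernel
theorem c_t6_5 : (tr20.all (cp 1 8 47 1 4 4 true) &&
    tr21.all (cp 1 8 47 1 4 4 true) &&
    tr22.all (cp 1 8 47 1 4 4 true) &&
    tr23.all (cp 1 8 47 1 4 4 true)) = true := by
  decide +kernel
theorem c_t6_6 : (tr24.all (cp 1 8 47 1 4 4 true) &&
    tr25.all (cp 1 8 47 1 4 4 true) &&
    tr26.all (cp 1 8 47 1 4 4 true) &&
    tr27.all (cp 1 8 47 1 4 4 true)) = true := by
  decide +kernel
theorem c_t6_7 : (tr28.all (cp 1 8 47 1 4 4 true) &&
    tr29.all (cp 1 8 47 1 4 4 true) &&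
    tr30.all (cp 1 8 47 1 4 4 true) &&
    tr31.all (cp 1 8 47 1 4 4 true)) = true := by
  decide +kernel
theorem c_t6 : chk 1 8 47 1 4 4 true = true :=
  split (cp 1 8 47 1 4 4 true) c_t6_t c_t6_0 c_t6_1 c_t6_2 c_t6_3 c_t6_4 c_t6_5 c_t6_6 c_t6_7

end Pool.Agent.H21Z.NR
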