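import Pool.Agent.H21Z.NR.Split

set_option autoImplicit false

namespace Pool.Agent.H21Z.NR

theorem c_t5_t : top.all (cp 8 7 1 1 4 4 true) = true := by decide +kernel
theorem c_t5_0 : (tr0.all (cp 8 7 1 1 4 4 true) &&
    tr1.all (cp 8 7 1 1 4 4 true) &&
    tr2.all (cp 8 7 1 1 4 4 true) &&
    tr3.all (cp 8 7 1 1 4 4 true)) = true := by
  decide +kernel
theorem c_t5_1 : (tr4.all (cp 8 7 1 1 4 4 true) &&
    tr5.all (cp 8 7 1 1 4 4 true) &&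
    tr6.all (cp 8 7 1 1 4 4 true) &&
    tr7.all (cp 8 7 1 1 4 4 true)) = true := by
  decide +kernel
theorem c_t5_2 : (tr8.all (cp 8 7 1 1 4 4 true) &&
    tr9.all (cp 8 7 1 1 4 4 true) &&
    tr10.all (cp 8 7 1 1 4 4 true) &&
    tr11.all (cp 8 7 1 1 4 4 true)) = true := by
  decide +kernel
theorem c_t5_3 : (tr12.all (cp 8 7 1 1 4 4 true) &&
    tr13.all (cp 8 7 1 1 4 4 true) &&
    tr14.all (cp 8 7 1 1 4 4 true) &&
    tr15.all (cp 8 7 1 1 4 4 true)) = true := by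
  decide +kernel
theorem c_t5_4 : (tr16.all (cp 8 7 1 1 4 4 true) &&
    tr17.all (cp 8 7 1 1 4 4 true) &&
    tr18.all (cp 8 7 1 1 4 4 true) &&
    tr19.all (cp 8 7 1 1 4 4 true)) = true := by
  decide +kernel
theorem c_t5_5 : (tr20.all (cp 8 7 1 1 4 4 true) &&
    tr21.all (cp 8 7 1 1 4 4 true) &&
    tr22.all (cp 8 7 1 1 4 4 true) &&
    tr23.all (cp 8 7 1 1 4 4 true)) = true := by
  decide +kernel
theorem c_t5_6 : (tr24.all (cp 8 7 1 1 4 4 true) &&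
    tr25.all (cp 8 7 1 1 4 4 true) &&
    tr26.all (cp 8 7 1 1 4 4 true) &&
    tr27.all (cp 8 7 1 1 4 4 true)) = true := by
  decide +kernel
theorem c_t5_7 : (tr28.all (cp 8 7 1 1 4 4 true) &&
    tr29.all (cp 8 7 1 1 4 4 true) &&
    tr30.all (cp 8 7 1 1 4 4 true) &&
    tr31.all (cp 8 7 1 1 4 4 true)) = true := by
  decide +kernel
theorem c_t5 : chk 8 7 1 1 4 4 true = true :=
  split (cp 8 7 1 1 4 4 true) c_t5_t c_t5_0 c_t5_1 c_t5_2 c_t5_3 c_t5_4 c_t5_5 c_t5_6 c_t5_7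

theorem c_t4_t : top.all (cp 7 6 1 1 4 4 true) = true := by decide +kernel
theorem c_t4_0 : (tr0.all (cp 7 6 1 1 4 4 true) &&
    tr1.all (cp 7 6 1 1 4 4 true) &&
    tr2.all (cp 7 6 1 1 4 4 true) &&
    tr3.all (cp 7 6 1 1 4 4 true)) = true := by
  decide +kernel
theorem c_t4_1 : (tr4.all (cp 7 6 1 1 4 4 true) &&
    tr5.all (cp 7 6 1 1 4 4 true) &&
    tr6.all (cp 7 6 1 1 4 4 true) &&
    tr7.all (cp 7 6 1 1 4 4 true)) = true := by
  decide +kernel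
theorem c_t4_2 : (tr8.all (cp 7 6 1 1 4 4 true) &&
    tr9.all (cp 7 6 1 1 4 4 true) &&
    tr10.all (cp 7 6 1 1 4 4 true) &&
    tr11.all (cp 7 6 1 1 4 4 true)) = true := by
  decide +kernel
theorem c_t4_3 : (tr12.all (cp 7 6 1 1 4 4 true) &&
    tr13.all (cp 7 6 1 1 4 4 true) &&
    tr14.all (cp 7 6 1 1 4 4 true) &&
    tr15.all (cp 7 6 1 1 4 4 true)) = true := by
  decide +kernel
theorem c_t4_4 : (tr16.all (cp 7 6 1 1 4 4 true) &&
    tr17.all (cp 7 6 1 1 4 4 true) &&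
    tr18.all (cp 7 6 1 1 4 4 true) &&
    tr19.all (cp 7 6 1 1 4 4 true)) = true := by
  decide +kernel
theorem c_t4_5 : (tr20.all (cp 7 6 1 1 4 4 true) &&
    tr21.all (cp 7 6 1 1 4 4 true) &&
    tr22.all (cp 7 6 1 1 4 4 true) &&
    tr23.all (cp 7 6 1 1 4 4 true)) = true := by
  decide +kernel
theorem c_t4_6 : (tr24.all (cp 7 6 1 1 4 4 true) &&
    tr25.all (cp 7 6 1 1 4 4 true) &&
    tr26.all (cp 7 6 1 1 4 4 true) &&
    tr27.all (cp 7 6 1 1 4 4 true)) = true := by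
  decide +kernel
theorem c_t4_7 : (tr28.all (cp 7 6 1 1 4 4 true) &&
    tr29.all (cp 7 6 1 1 4 4 true) &&
    tr30.all (cp 7 6 1 1 4 4 true) &&
    tr31.all (cp 7 6 1 1 4 4 true)) = true := by
  decide +kernel
theorem c_t4 : chk 7 6 1 1 4 4 true = true :=
  split (cp 7 6 1 1 4 4 true) c_t4_t c_t4_0 c_t4_1 c_t4_2 c_t4_3 c_t4_4 c_t4_5 c_t4_6 c_t4_7

theorem c_t3_t : top.all (cp 6 5 1 1 4 4 true) = true := by decide +kernel
theorem c_t3_0 : (tr0.all (cp 6 5 1 1 4 4 true) &&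
    tr1.all (cp 6 5 1 1 4 4 true) &&
    tr2.all (cp 6 5 1 1 4 4 true) &&
    tr3.all (cp 6 5 1 1 4 4 true)) = true := by
  decide +kernel
theorem c_t3_1 : (tr4.all (cp 6 5 1 1 4 4 true) &&
    tr5.all (cp 6 5 1 1 4 4 true) &&
    tr6.all (cp 6 5 1 1 4 4 true) &&
    tr7.all (cp 6 5 1 1 4 4 true)) = true := by
  decide +kernel
theorem c_t3_2 : (tr8.all (cp 6 5 1 1 4 4 true) &&
    tr9.all (cp 6 5 1 1 4 4 true) &&
    tr10.all (cp 6 5 1 1 4 4 true) &&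
    tr11.all (cp 6 5 1 1 4 4 true)) = true := by
  decide +kernel
theorem c_t3_3 : (tr12.all (cp 6 5 1 1 4 4 true) &&
    tr13.all (cp 6 5 1 1 4 4 true) &&
    tr14.all (cp 6 5 1 1 4 4 true) &&
    tr15.all (cp 6 5 1 1 4 4 true)) = true := by
  decide +kernel
theorem c_t3_4 : (tr16.all (cp 6 5 1 1 4 4 true) &&
    tr17.all (cp 6 5 1 1 4 4 true) &&
    tr18.all (cp 6 5 1 1 4 4 true) &&
    tr19.all (cp 6 5 1 1 4 4 true)) = true := by
  decide +kernel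
theorem c_t3_5 : (tr20.all (cp 6 5 1 1 4 4 true) &&
    tr21.all (cp 6 5 1 1 4 4 true) &&
    tr22.all (cp 6 5 1 1 4 4 true) &&
    tr23.all (cp 6 5 1 1 4 4 true)) = true := by
  decide +kernel
theorem c_t3_6 : (tr24.all (cp 6 5 1 1 4 4 true) &&
    tr25.all (cp 6 5 1 1 4 4 true) &&
    tr26.all (cp 6 5 1 1 4 4 true) &&
    tr27.all (cp 6 5 1 1 4 4 true)) = true := by
  decide +kernel
theorem c_t3_7 : (tr28.all (cp 6 5 1 1 4 4 true) &&
    tr29.all (cp 6 5 1 1 4 4 true) &&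
    tr30.all (cp 6 5 1 1 4 4 true) &&
    tr31.all (cp 6 5 1 1 4 4 true)) = true := by
  decide +kernel
theorem c_t3 : chk 6 5 1 1 4 4 true = true :=
  split (cp 6 5 1 1 4 4 true) c_t3_t c_t3_0 c_t3_1 c_t3_2 c_t3_3 c_t3_4 c_t3_5 c_t3_6 c_t3_7

end Pool.Agent.H21Z.NR
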