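import Pool.Agent.H21Z.NR.Split

set_option autoImplicit false

namespace Pool.Agent.H21Z.NR

theorem c_sw1_t : top.all (cp 0 2 1900 1 4 4 false) = true := by decide +kernel
theorem c_sw1_0 : (tr0.all (cp 0 2 1900 1 4 4 false) &&
    tr1.all (cp 0 2 1900 1 4 4 false) &&
    tr2.all (cp 0 2 1900 1 4 4 false) &&
    tr3.all (cp 0 2 1900 1 4 4 false)) = true := by
  decide +kernel
theorem c_sw1_1 : (tr4.all (cp 0 2 1900 1 4 4 false) &&
    tr5.all (cp 0 2 1900 1 4 4 false) &&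
    tr6.all (cp 0 2 1900 1 4 4 false) &&
    tr7.all (cp 0 2 1900 1 4 4 false)) = true := by
  decide +kernel
theorem c_sw1_2 : (tr8.all (cp 0 2 1900 1 4 4 false) &&
    tr9.all (cp 0 2 1900 1 4 4 false) &&
    tr10.all (cp 0 2 1900 1 4 4 false) &&
    tr11.all (cp 0 2 1900 1 4 4 false)) = true := by
  decide +kernel
theorem c_sw1_3 : (tr12.all (cp 0 2 1900 1 4 4 false) &&
    tr13.all (cp 0 2 1900 1 4 4 false) &&
    tr14.all (cp 0 2 1900 1 4 4 false) &&
    tr15.all (cp 0 2 1900 1 4 4 false)) = true := by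
  decide +kernel
theorem c_sw1_4 : (tr16.all (cp 0 2 1900 1 4 4 false) &&
    tr17.all (cp 0 2 1900 1 4 4 false) &&
    tr18.all (cp 0 2 1900 1 4 4 false) &&
    tr19.all (cp 0 2 1900 1 4 4 false)) = true := by
  decide +kernel
theorem c_sw1_5 : (tr20.all (cp 0 2 1900 1 4 4 false) &&
    tr21.all (cp 0 2 1900 1 4 4 false) &&
    tr22.all (cp 0 2 1900 1 4 4 false) &&
    tr23.all (cp 0 2 1900 1 4 4 false)) = true := by
  decide +kernel
theorem c_sw1_6 : (tr24.all (cp 0 2 1900 1 4 4 false) &&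
    tr25.all (cp 0 2 1900 1 4 4 false) &&
    tr26.all (cp 0 2 1900 1 4 4 false) &&
    tr27.all (cp 0 2 1900 1 4 4 false)) = true := by
  decide +kernel
theorem c_sw1_7 : (tr28.all (cp 0 2 1900 1 4 4 false) &&
    tr29.all (cp 0 2 1900 1 4 4 false) &&
    tr30.all (cp 0 2 1900 1 4 4 false) &&
    tr31.all (cp 0 2 1900 1 4 4 false)) = true := by
  decide +kernel
theorem c_sw1 : chk 0 2 1900 1 4 4 false = true :=
  split (cp 0 2 1900 1 4 4 false) c_sw1_t c_sw1_0 c_sw1_1 c_sw1_2 c_sw1_3 c_sw1_4 c_sw1_5 c_sw1_6 c_sw1_7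

theorem c_sw2_t : top.all (cp 2 1 209 100 4 4 false) = true := by decide +kernel
theorem c_sw2_0 : (tr0.all (cp 2 1 209 100 4 4 false) &&
    tr1.all (cp 2 1 209 100 4 4 false) &&
    tr2.all (cp 2 1 209 100 4 4 false) &&
    tr3.all (cp 2 1 209 100 4 4 false)) = true := by
  decide +kernel
theorem c_sw2_1 : (tr4.all (cp 2 1 209 100 4 4 false) &&
    tr5.all (cp 2 1 209 100 4 4 false) &&
    tr6.all (cp 2 1 209 100 4 4 false) &&
    tr7.all (cp 2 1 209 100 4 4 false)) = true := by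
  decide +kernel
theorem c_sw2_2 : (tr8.all (cp 2 1 209 100 4 4 false) &&
    tr9.all (cp 2 1 209 100 4 4 false) &&
    tr10.all (cp 2 1 209 100 4 4 false) &&
    tr11.all (cp 2 1 209 100 4 4 false)) = true := by
  decide +kernel
theorem c_sw2_3 : (tr12.all (cp 2 1 209 100 4 4 false) &&
    tr13.all (cp 2 1 209 100 4 4 false) &&
    tr14.all (cp 2 1 209 100 4 4 false) &&
    tr15.all (cp 2 1 209 100 4 4 false)) = true := by
  decide +kernel
theorem c_sw2_4 : (tr16.all (cp 2 1 209 100 4 4 false) &&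
    tr17.all (cp 2 1 209 100 4 4 false) &&
    tr18.all (cp 2 1 209 100 4 4 false) &&
    tr19.all (cp 2 1 209 100 4 4 false)) = true := by
  decide +kernel
theorem c_sw2_5 : (tr20.all (cp 2 1 209 100 4 4 false) &&
    tr21.all (cp 2 1 209 100 4 4 false) &&
    tr22.all (cp 2 1 209 100 4 4 false) &&
    tr23.all (cp 2 1 209 100 4 4 false)) = true := by
  decide +kernel
theorem c_sw2_6 : (tr24.all (cp 2 1 209 100 4 4 false) &&
    tr25.all (cp 2 1 209 100 4 4 false) &&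
    tr26.all (cp 2 1 209 100 4 4 false) &&
    tr27.all (cp 2 1 209 100 4 4 false)) = true := by
  decide +kernel
theorem c_sw2_7 : (tr28.all (cp 2 1 209 100 4 4 false) &&
    tr29.all (cp 2 1 209 100 4 4 false) &&
    tr30.all (cp 2 1 209 100 4 4 false) &&
    tr31.all (cp 2 1 209 100 4 4 false)) = true := by
  decide +kernel
theorem c_sw2 : chk 2 1 209 100 4 4 false = true :=
  split (cp 2 1 209 100 4 4 false) c_sw2_t c_sw2_0 c_sw2_1 c_sw2_2 c_sw2_3 c_sw2_4 c_sw2_5 c_sw2_6 c_sw2_7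

end Pool.Agent.H21Z.NR
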