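import Pool.Agent.H21Z.NR.Data

set_option autoImplicit false

namespace Pool.Agent.H21Z.NR

/-- Weight number `j` of a state. -/
noncomputable def W (j : ℕ) (s : St) : ℕ := fld j (tree.get (key s))

noncomputable def val (b : ℕ) (pair : Bool) (s : St) (k : ℕ) : ℕ :=
  bif bad s k || (pair && pairbad s k) then 0 else W b (delta s k)

noncomputable def mval (b : ℕ) (pair : Bool) (s : St) (k : ℕ) : ℕ :=
  bif occ s k then val b pair s k else 1000000

def th (A num den k v0 v1 v2 v3 v4 v5 v6 v7 g t : ℕ) : Bool :=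
  Nat.ble t g && Nat.ble (num * A + den * ((t - v0) + (t - v1) + (t - v2) + (t - v3) + (t - v4) +
    (t - v5) + (t - v6) + (t - v7))) (den * (k * t))

def chk1 (A num den k v0 v1 v2 v3 v4 v5 v6 v7 g : ℕ) : Bool :=
  th A num den k v0 v1 v2 v3 v4 v5 v6 v7 g g || th A num den k v0 v1 v2 v3 v4 v5 v6 v7 g v0 ||
  th A num den k v0 v1 v2 v3 v4 v5 v6 v7 g v1 || th A num den k v0 v1 v2 v3 v4 v5 v6 v7 g v2 ||
  th A num den k v0 v1 v2 v3 v4 v5 v6 v7 g v3 || th A num den k v0 v1 v2 v3 v4 v5 v6 v7 g v4 ||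
  th A num den k v0 v1 v2 v3 v4 v5 v6 v7 g v5 || th A num den k v0 v1 v2 v3 v4 v5 v6 v7 g v6 ||
  th A num den k v0 v1 v2 v3 v4 v5 v6 v7 g v7

noncomputable def chkS (A b num den kf kn : ℕ) (pair : Bool) (s : St) : Bool :=
  Nat.beq A 0 || chk1 A num den (bif fresh s then kf else kn) (mval b pair s 0) (mval b pair s 1)
    (mval b pair s 2) (mval b pair s 3) (mval b pair s 4) (mval b pair s 5) (mval b pair s 6)
    (mval b pair s 7) (val b pair s 8)

/-- The local inequality from the table `a` to the table `b`, for all states. -/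
noncomputable def chk (a b num den kf kn : ℕ) (pair : Bool) : Bool :=
  tree.all fun n v => chkS (fld a v) b num den kf kn pair (dec n)

/-- Pointwise relations between the tables. -/
def rel (v : ℕ) : Bool :=
  Nat.ble (fld 0 v) 1 && Nat.ble (fld 1 v) (fld 2 v) && Nat.ble (fld 2 v) 2051 &&
  (Nat.beq (fld 1 v) 0 || Nat.ble 268 (fld 1 v)) && (Nat.beq (fld 2 v) 0 || Nat.ble 268 (fld 2 v)) &&
  Nat.ble (fld 3 v) (fld 1 v) &&
  (Nat.beq (fld 1 v) 0 || (Nat.ble (10 * fld 4 v) (22 * fld 1 v) &&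
    Nat.ble (10 * fld 5 v) (45 * fld 1 v) && Nat.ble (10 * fld 6 v) (83 * fld 1 v) &&
    Nat.ble (fld 7 v) (16 * fld 1 v) && Nat.ble (fld 8 v) (30 * fld 1 v)))

end Pool.Agent.H21Z.NR
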