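import Pool.Agent.H21Z.NR.HalfWord

set_option autoImplicit false

namespace Pool.Agent.H21Z.NR

open Finset

/-- No short square passes through a branch vertex in its first half. -/
theorem sq_branch {M n0 n a c e d c' e' d' : ℕ} {L L' : ℕ → Finset ℕ} {y1 y2 : ℕ → ℕ}
    (g1 : Good M n0 n a c' e' d' L' y1) (g2 : Good M n0 n a c e d L y2) (s : ℕ → ℕ) (p t : ℕ)
    (hp : p < t) (ht : 2 * t ≤ n0) (h1 : ∀ i k, i + k = p → s i = y1 k)
    (h2 : ∀ i, p + i < 2 * t → s (p + i) = y2 i) (hs : ∀ i < t, s i = s (i + t)) : False := by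
  have ea : y2 t = a := by
    rw [← h2 t (by omega), ← hs p hp, h1 p 0 rfl, g1.h0]
  have t2 : 2 ≤ t := by
    by_contra h
    have : t = 1 := by omega
    rw [this] at ea
    exact g2.r0 ea
  obtain ⟨r, r2, r5, hr, er⟩ := g2.r1 t t2 (by omega) ea
  have e1 : ∀ k, 1 ≤ k → k ≤ p → y2 (t - k) = y1 k := by
    intro k hk1 hk2
    rw [← h2 (t - k) (by omega), ← h1 (p - k) k (by omega), hs (p - k) (by omega)]
    congr 1; omega
  have e2 : ∀ i, p + i < t → y2 (t + i) = y2 i := by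
    intro i hi
    rw [← h2 (t + i) (by omega), ← h2 i (by omega), hs (p + i) hi]
    congr 1; omega
  have hpr : p ≤ r := by
    by_contra h
    apply g1.r2 (r + 1) (by omega) (by omega)
    rw [← e1 (r + 1) (by omega) (by omega), ← e1 1 le_rfl (by omega), er]
    congr 1; omega
  have hr2 : r + 3 ≤ t := by
    by_contra h
    apply g2.r2 (t - 1) (by omega) (by omega)
    rw [er]
    congr 1; omega
  have t6 : 6 ≤ t := by
    by_contra h
    exact g2.r2 (t + 1) (by omega) (by omega) (e2 1 (by omega))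
  exact g2.bord t t6 ht ea fun i _ hi => e2 i (by omega)

/-- No short square lies inside a subdivided edge with the middle not in the first half. -/
theorem sq_chain {M n0 n a c e d : ℕ} {L : ℕ → Finset ℕ} {y : ℕ → ℕ} (hce : c ≠ e) (hcd : c ≠ d)
    (g : Good M n0 n a c e d L y) (u : ℕ → ℕ) (hu : ∀ j ≤ n + 8, u j = y j) (he : u (n + 9) = e)
    (hd : u (n + 10) = d) (j t : ℕ) (hj : 1 ≤ j) (ht : 1 ≤ t) (htn : n0 + t ≤ n + 5)
    (hjt : j + t ≤ n + 9) (hs : ∀ i < t, u (j + i) = u (j + i + t)) : False := by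
  have hc : u (n + 8) = c := by rw [hu _ le_rfl, g.hc]
  by_cases h1 : j + 2 * t ≤ n + 9
  · refine g.sq j t hj ht h1 fun k hk => ?_
    rw [← hu _ (by omega), ← hu _ (by omega)]
    exact hs k hk
  have hs' : ∀ i k, j ≤ i → i < j + t → k = i + t → u i = u k := by
    intro i k h2 h3 h4
    have := hs (i - j) (by omega)
    rwa [show j + (i - j) = i by omega, ← h4] at this
  by_cases h2 : t = 1
  · exact hce (by rw [← hc, ← he]; exact hs' _ _ (by omega) (by omega) (by omega))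
  by_cases h3 : j + t = n + 9
  · by_cases h4 : t = 2
    · exact hcd (by rw [← hc, ← hd]; exact hs' _ _ (by omega) (by omega) (by omega))
    · refine g.pr j (by omega) (by omega) (Or.inr ⟨?_, ?_⟩)
      · rw [← hu _ (by omega), ← he]; exact hs' _ _ (by omega) (by omega) (by omega)
      · rw [← hu _ (by omega), ← hd]; exact hs' _ _ (by omega) (by omega) (by omega)
  · refine g.pr (n + 8 - t) (by omega) (by omega) (Or.inl ⟨?_, ?_⟩)
    · rw [← hu _ (by omega), ← hc]; exact hs' _ _ (by omega) (by omega) (by omega)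
    · rw [← hu _ (by omega), ← he]; exact hs' _ _ (by omega) (by omega) (by omega)

/-- The windows at `α` and `β` differ in both directions. -/
def Dif (M : ℕ) (y y' : ℕ → ℕ) (α β : ℕ) : Prop :=
  (¬ ∀ k < M, y (α + k) = y' (β + k)) ∧ ¬ ∀ k < M, y (α + k) = y' (β + M - 1 - k)

theorem Dif.symm {M : ℕ} {y y' : ℕ → ℕ} {α β : ℕ} (h : Dif M y y' α β) : Dif M y' y β α := by
  refine ⟨fun h1 => h.1 fun k hk => (h1 k hk).symm, fun h1 => h.2 fun k hk => ?_⟩
  have := h1 (M - 1 - k) (by omega)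
  rw [show β + (M - 1 - k) = β + M - 1 - k by omega,
    show α + M - 1 - (M - 1 - k) = α + k by omega] at this
  exact this.symm

theorem all_words {Δ : Type} [Fintype Δ] (M n0 n : ℕ) (a c e d : Δ → ℕ) (hce : ∀ x, c x ≠ e x)
    (hcd : ∀ x, c x ≠ d x) (hed : ∀ x, e x ≠ d x) (L : Δ → ℕ → Finset ℕ)
    (hL : ∀ x p, 4 ≤ (L x p).card) (hM : 2 ≤ M) (hn0 : 20 ≤ n0) (hn : n0 + 31 ≤ n)
    (hC : (((Fintype.card Δ + 1) * (2 * (n + 1)) : ℕ) * 65536 : ℝ) * (4 / 7) ^ (M - 1) ≤ 1 / 1000) :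
    ∃ Y : Δ → ℕ → ℕ, (∀ x, Good M n0 n (a x) (c x) (e x) (d x) (L x) (Y x)) ∧
      ∀ x x' α β, 12 ≤ α → α + M ≤ n + 2 → 12 ≤ β → β + M ≤ n + 2 →
        (x ≠ x' ∨ α + M ≤ β ∨ β + M ≤ α) → Dif M (Y x) (Y x') α β := by
  classical
  have key : ∀ S : Finset Δ, ∃ Y : Δ → ℕ → ℕ,
      (∀ x ∈ S, Good M n0 n (a x) (c x) (e x) (d x) (L x) (Y x)) ∧
      ∀ x ∈ S, ∀ x' ∈ S, ∀ α β, 12 ≤ α → α + M ≤ n + 2 → 12 ≤ β → β + M ≤ n + 2 → x ≠ x' →
        Dif M (Y x) (Y x') α β := by
    intro S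
    induction S using Finset.induction_on with
    | empty => exact ⟨fun _ _ => 0, by simp, by simp⟩
    | insert x0 S hx0 ih =>
      obtain ⟨Y, h1, h2⟩ := ih
      obtain ⟨R, hR, r1, r2⟩ : ∃ R : Finset (ℕ → ℕ), R.card ≤ Fintype.card Δ * (2 * (n + 1)) ∧
          (∀ x, ∀ β ≤ n, (fun k => Y x (β + k)) ∈ R) ∧
          (∀ x, ∀ β ≤ n, (fun k => Y x (β + M - 1 - k)) ∈ R) := by
        refine ⟨((univ : Finset Δ) ×ˢ range (n + 1)).image (fun q k => Y q.1 (q.2 + k)) ∪
          ((univ : Finset Δ) ×ˢ range (n + 1)).image (fun q k => Y q.1 (q.2 + M - 1 - k)), ?_,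
          fun x β hβ => mem_union_left _ (mem_image.mpr ⟨(x, β), by simp; omega, rfl⟩),
          fun x β hβ => mem_union_right _ (mem_image.mpr ⟨(x, β), by simp; omega, rfl⟩)⟩
        refine (card_union_le _ _).trans ((add_le_add card_image_le card_image_le).trans ?_)
        rw [card_product, card_univ, card_range]
        exact le_of_eq (by ring)
      obtain ⟨y, hy, hy'⟩ := half_word M n0 n (a x0) (c x0) (e x0) (d x0) (hce x0) (hcd x0) (hed x0)
        (L x0) R (hL x0) hM hn0 hn (le_trans (mul_le_mul_of_nonneg_right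
          (mul_le_mul_of_nonneg_right (by
            rw [add_mul, one_mul]
            exact_mod_cast Nat.add_le_add_right hR _) (by norm_num))
          (pow_nonneg (by norm_num) _)) hC)
      have ne : ∀ x ∈ S, x ≠ x0 := fun x hx h => hx0 (h ▸ hx)
      have d0 : ∀ x α β, 12 ≤ α → α + M ≤ n + 2 → β + M ≤ n + 2 → Dif M y (Y x) α β :=
        fun x α β a1 a2 b2 => ⟨hy' _ (r1 x β (by omega)) α a1 a2, hy' _ (r2 x β (by omega)) α a1 a2⟩
      refine ⟨Function.update Y x0 y, fun x hx => ?_, fun x hx x' hx' α β a1 a2 b1 b2 hne => ?_⟩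
      · rcases mem_insert.mp hx with rfl | hx
        · rw [Function.update_self]; exact hy
        · rw [Function.update_of_ne (ne x hx)]; exact h1 x hx
      · rcases mem_insert.mp hx with hy1 | hy1 <;> rcases mem_insert.mp hx' with hy2 | hy2
        · exact absurd (hy1.trans hy2.symm) hne
        · rw [hy1, Function.update_self, Function.update_of_ne (ne x' hy2)]
          exact d0 x' α β a1 a2 b2
        · rw [hy2, Function.update_self, Function.update_of_ne (ne x hy1)]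
          exact (d0 x β α b1 b2 a2).symm
        · rw [Function.update_of_ne (ne x hy1), Function.update_of_ne (ne x' hy2)]
          exact h2 x hy1 x' hy2 α β a1 a2 b1 b2 hne
  obtain ⟨Y, h1, h2⟩ := key univ
  refine ⟨Y, fun x => h1 x (mem_univ _), fun x x' α β a1 a2 b1 b2 h => ?_⟩
  by_cases hx : x = x'
  · subst hx
    rcases h with h | h | h
    · exact absurd rfl h
    · exact Dif.symm ((h1 x (mem_univ _)).int β α b1 b2 (by omega) h)
    · exact (h1 x (mem_univ _)).int α β a1 a2 (by omega) h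
  · exact h2 x (mem_univ _) x' (mem_univ _) α β a1 a2 b1 b2 hx

theorem exists_M (D : ℕ) : ∃ M, 2 ≤ M ∧
    (((D + 1) * (2 * (9 * M + 200 + 1)) : ℕ) * 65536 : ℝ) * (4 / 7) ^ (M - 1) ≤ 1 / 1000 := by
  have h1 := tendsto_pow_const_mul_const_pow_of_abs_lt_one 1 (r := (4 / 7 : ℝ))
    (by rw [abs_of_pos] <;> norm_num)
  have h2 := h1.const_mul ((D + 1) * 438 * 65536 : ℝ)
  rw [mul_zero] at h2
  obtain ⟨m, hm1, hm2⟩ := ((h2.eventually (ge_mem_nhds (show (0 : ℝ) < 1 / 1000 by norm_num))).and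
    (Filter.eventually_ge_atTop 1)).exists
  refine ⟨m + 1, by omega, le_trans ?_ hm1⟩
  have h3 : (1 : ℝ) ≤ m := by exact_mod_cast hm2
  have h4 : (0 : ℝ) ≤ (4 / 7) ^ m := by positivity
  have h5 : (0 : ℝ) ≤ D + 1 := by positivity
  rw [Nat.add_sub_cancel, pow_one]
  push_cast
  have h6 : (2 * (9 * ((m : ℝ) + 1) + 200 + 1)) ≤ 438 * m := by linarith
  calc _ = (D + 1) * 65536 * (4 / 7) ^ m * (2 * (9 * ((m : ℝ) + 1) + 200 + 1)) := by ring
    _ ≤ (D + 1) * 65536 * (4 / 7) ^ m * (438 * m) :=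
      mul_le_mul_of_nonneg_left h6 (by positivity)
    _ = _ := by ring

end Pool.Agent.H21Z.NR
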