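import Pool.Agent.H21Z.NR.Local
import Pool.Agent.H21Z.NR.C1

set_option autoImplicit false

namespace Pool.Agent.H21Z.NR

open Finset

theorem cover {ι α : Type} (B : Finset α) (g : α → ℝ) (Ev : Finset ι) (A : ι → Finset α)
    (F : ι → α → α) (h : ι → α → ℝ) (hh : ∀ e ∈ Ev, ∀ v ∈ A e, 0 ≤ h e v)
    (hB : ∀ z ∈ B, ∃ e ∈ Ev, ∃ v ∈ A e, z = F e v ∧ g z ≤ h e v) :
    ∑ z ∈ B, g z ≤ ∑ e ∈ Ev, ∑ v ∈ A e, h e v := by
  classical
  have hB' : ∀ z : B, ∃ x : (Σ _ : ι, α), x ∈ Ev.sigma A ∧ z.1 = F x.1 x.2 ∧ g z.1 ≤ h x.1 x.2 := by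
    rintro ⟨z, hz⟩
    obtain ⟨e, he, v, hv, h1, h2⟩ := hB z hz
    exact ⟨⟨e, v⟩, mem_sigma.mpr ⟨he, hv⟩, h1, h2⟩
  choose ch h1 h2 h3 using hB'
  have hinj : Function.Injective ch := by
    intro x y hxy
    apply Subtype.ext
    rw [h2 x, h2 y, hxy]
  rw [← sum_sigma Ev A (fun x => h x.1 x.2), ← sum_attach B g]
  calc ∑ z ∈ B.attach, g z.1 ≤ ∑ z ∈ B.attach, h (ch z).1 (ch z).2 := sum_le_sum fun z _ => h3 z
    _ = ∑ x ∈ B.attach.image ch, h x.1 x.2 := by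
        rw [sum_image (fun x _ y _ hxy => hinj hxy)]
    _ ≤ _ := by
        refine sum_le_sum_of_subset_of_nonneg (fun x hx => ?_) (fun x hx _ => ?_)
        · obtain ⟨z, _, rfl⟩ := mem_image.mp hx
          exact h1 z
        · exact hh _ (mem_sigma.mp hx).1 _ (mem_sigma.mp hx).2

/-- The data of a letter by letter construction. -/
structure Proc where
  c : ℕ
  e : ℕ
  d : ℕ
  hce : c ≠ e
  hcd : c ≠ d
  hed : e ≠ d
  w0 : ℕ → ℕ
  L : ℕ → Finset ℕ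
  tab : ℕ → ℕ
  X : ℕ → (ℕ → ℕ) → Finset ℕ
  pair : ℕ → Bool
  Ex : ℕ → (ℕ → ℕ) → Prop

namespace Proc

variable (P : Proc)

def sg (w : ℕ → ℕ) : St := sig P.c P.e P.d w

noncomputable def vl (p : ℕ) (w : ℕ → ℕ) (u : ℕ) : ℕ :=
  val (P.tab p) (P.pair p) (P.sg w) (phi P.c P.e P.d w u)

def ok (p : ℕ) (w : ℕ → ℕ) (u : ℕ) : Prop :=
  u ∉ P.X p w ∧ 0 < P.vl p w u ∧ (∀ i, 6 ≤ i → 2 * i ≤ p + 1 → ¬ Sq i (cs u w)) ∧
    ¬ P.Ex p (cs u w)

open Classical in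
noncomputable def S : ℕ → Finset (ℕ → ℕ)
  | 0 => {P.w0}
  | p + 1 => ((S p ×ˢ P.L (p + 1)).filter (fun x => P.ok (p + 1) x.1 x.2)).image
      (fun x => cs x.2 x.1)

noncomputable def wt (p : ℕ) (w : ℕ → ℕ) : ℝ := W (P.tab p) (P.sg w)

noncomputable def T (p : ℕ) : ℝ := ∑ w ∈ P.S p, P.wt p w

theorem wt_nonneg (p : ℕ) (w : ℕ → ℕ) : 0 ≤ P.wt p w := Nat.cast_nonneg _

theorem T_nonneg (p : ℕ) : 0 ≤ P.T p := sum_nonneg fun w _ => P.wt_nonneg p w

theorem mem_succ {p : ℕ} {z : ℕ → ℕ} : z ∈ P.S (p + 1) ↔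
    ∃ w ∈ P.S p, ∃ u ∈ P.L (p + 1), P.ok (p + 1) w u ∧ z = cs u w := by
  classical
  simp only [S, mem_image, mem_filter, mem_product]
  constructor
  · rintro ⟨⟨w, u⟩, ⟨⟨h1, h2⟩, h3⟩, rfl⟩
    exact ⟨w, h1, u, h2, h3, rfl⟩
  · rintro ⟨w, h1, u, h2, h3, rfl⟩
    exact ⟨⟨w, u⟩, ⟨⟨h1, h2⟩, h3⟩, rfl⟩

theorem mem_zero {z : ℕ → ℕ} : z ∈ P.S 0 ↔ z = P.w0 := by simp [S]

theorem dr_mem : ∀ (j : ℕ) {p : ℕ} {z : ℕ → ℕ}, z ∈ P.S p → j ≤ p →
    (fun k => z (k + j)) ∈ P.S (p - j) := by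
  intro j
  induction j with
  | zero => intro p z hz _; exact hz
  | succ j ih =>
    intro p z hz hj
    obtain ⟨p, rfl⟩ : ∃ q, p = q + 1 := ⟨p - 1, by omega⟩
    obtain ⟨w, hw, u, _, _, rfl⟩ := P.mem_succ.mp hz
    have := ih hw (by omega)
    rw [show p + 1 - (j + 1) = p - j by omega]
    exact this

theorem vl_pos {p : ℕ} {w : ℕ → ℕ} {u : ℕ} (h : 0 < P.vl p w u) :
    bad (P.sg w) (phi P.c P.e P.d w u) = false ∧
    (P.pair p = true → ¬ ((w 0 = P.c ∧ u = P.e) ∨ (w 0 = P.e ∧ u = P.d))) ∧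
    P.vl p w u = W (P.tab p) (P.sg (cs u w)) := by
  unfold vl val at h ⊢
  cases h1 : bad (P.sg w) (phi P.c P.e P.d w u)
  · cases h2 : (P.pair p && pairbad (P.sg w) (phi P.c P.e P.d w u))
    · refine ⟨rfl, fun h3 h4 => ?_, ?_⟩
      · rw [← pairbad_iff P.hce P.hcd P.hed] at h4
        rw [h3] at h2
        unfold sg at h2
        rw [h4] at h2
        simp at h2
      · simp only [Bool.or_false, cond_false]
        unfold sg
        rw [sig_cs P.hce P.hcd P.hed]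
    · rw [h1, h2] at h
      simp at h
  · rw [h1] at h
    simp at h

theorem no_sq {p : ℕ} {z : ℕ → ℕ} (hz : z ∈ P.S p) {i : ℕ} (h1 : 1 ≤ i) (h2 : 2 * i ≤ p + 1) :
    ¬ Sq i z := by
  obtain ⟨p, rfl⟩ : ∃ q, p = q + 1 := ⟨p - 1, by omega⟩
  obtain ⟨w, _, u, _, hok, rfl⟩ := P.mem_succ.mp hz
  by_cases h6 : 6 ≤ i
  · exact hok.2.2.1 i h6 h2
  · intro hs
    have := bad_of_sq (c := P.c) (e := P.e) (d := P.d) w u h1 (by omega) hs
    have h3 := (P.vl_pos hok.2.1).1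
    unfold sg at h3
    rw [this] at h3
    simp at h3

theorem wt_pos (h0 : 0 < W (P.tab 0) (P.sg P.w0)) {p : ℕ} {z : ℕ → ℕ} (hz : z ∈ P.S p) :
    0 < W (P.tab p) (P.sg z) := by
  cases p with
  | zero => rw [P.mem_zero.mp hz]; exact h0
  | succ p =>
    obtain ⟨w, _, u, _, hok, rfl⟩ := P.mem_succ.mp hz
    rw [← (P.vl_pos hok.2.1).2.2]
    exact hok.2.1

theorem cs_inj {u u' : ℕ} {w w' : ℕ → ℕ} (h : cs u w = cs u' w') : u = u' ∧ w = w' :=
  ⟨congrFun h 0, funext fun k => congrFun h (k + 1)⟩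

/-- The basic counting inequality. -/
theorem step (h0 : 0 < W (P.tab 0) (P.sg P.w0)) (p : ℕ) {num den kf kn : ℕ} (hden : 0 < den)
    (hchk : chk (P.tab p) (P.tab (p + 1)) num den kf kn (P.pair (p + 1)) = true)
    (hcard : ∀ w ∈ P.S p,
      (bif fresh (P.sg w) then kf else kn) ≤ (P.L (p + 1) \ P.X (p + 1) w).card)
    (lam : ℕ → ℝ)
    (hlam : ∀ i, 6 ≤ i → 2 * i ≤ p + 2 → 0 ≤ lam i ∧ ∀ s : St, 0 < W (P.tab (p + 1 - i)) s →
      (W (P.tab (p + 1)) s : ℝ) ≤ lam i * W (P.tab (p + 1 - i)) s)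
    {ι : Type} (Ev : Finset ι) (m : ι → ℕ) (F : ι → (ℕ → ℕ) → (ℕ → ℕ)) (mu : ι → ℝ)
    (hmu : ∀ e ∈ Ev, 0 ≤ mu e)
    (hEx : ∀ w ∈ P.S p, ∀ u, P.Ex (p + 1) (cs u w) → ∃ e ∈ Ev, ∃ v ∈ P.S (m e),
      cs u w = F e v ∧ P.wt (p + 1) (cs u w) ≤ mu e * P.wt (m e) v) :
    (num : ℝ) / den * P.T p - ∑ i ∈ Icc 6 ((p + 2) / 2), lam i * P.T (p + 1 - i) -
      ∑ e ∈ Ev, mu e * P.T (m e) ≤ P.T (p + 1) := by
  classical
  set Y : Finset (Σ _ : ℕ → ℕ, ℕ) := ((P.S p).sigma fun w => P.L (p + 1) \ P.X (p + 1) w).filter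
    (fun x => 0 < P.vl (p + 1) x.1 x.2) with hY
  set Z : Finset (ℕ → ℕ) := Y.image (fun x => cs x.2 x.1) with hZ
  have memZ : ∀ z ∈ Z, ∃ w ∈ P.S p, ∃ u ∈ P.L (p + 1), u ∉ P.X (p + 1) w ∧
      0 < P.vl (p + 1) w u ∧ z = cs u w := by
    intro z hz
    obtain ⟨⟨w, u⟩, hx, rfl⟩ := mem_image.mp hz
    obtain ⟨h1, h2⟩ := mem_filter.mp hx
    obtain ⟨h3, h4⟩ := mem_sigma.mp h1
    exact ⟨w, h3, u, (mem_sdiff.mp h4).1, (mem_sdiff.mp h4).2, h2, rfl⟩
  have hdenR : (0 : ℝ) < den := by exact_mod_cast hden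
  have s1 : (num : ℝ) / den * P.T p ≤ ∑ z ∈ Z, P.wt (p + 1) z := by
    have e1 : ∑ z ∈ Z, P.wt (p + 1) z =
        ∑ w ∈ P.S p, ∑ u ∈ P.L (p + 1) \ P.X (p + 1) w, (P.vl (p + 1) w u : ℝ) := by
      rw [hZ, sum_image, ← sum_sigma (P.S p) (fun w => P.L (p + 1) \ P.X (p + 1) w)
        (fun x => (P.vl (p + 1) x.1 x.2 : ℝ)), hY, sum_filter]
      · refine sum_congr rfl fun x _ => ?_
        split_ifs with hx
        · rw [(P.vl_pos hx).2.2]; rfl
        · have : P.vl (p + 1) x.1 x.2 = 0 := by omega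
          rw [this]; simp
      · rintro ⟨w, u⟩ _ ⟨w', u'⟩ _ hxy
        obtain ⟨h1, h2⟩ := cs_inj hxy
        simp only at h1 h2
        subst h1 h2
        rfl
    rw [e1, T, mul_sum]
    refine sum_le_sum fun w hw => ?_
    have := local_ineq (c := P.c) (e := P.e) (d := P.d) hchk w _ (hcard w hw)
    have h2 : (num : ℝ) * P.wt p w ≤
        den * ∑ u ∈ P.L (p + 1) \ P.X (p + 1) w, (P.vl (p + 1) w u : ℝ) := by
      unfold wt vl sg
      exact_mod_cast this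
    rw [div_mul_eq_mul_div, div_le_iff₀ hdenR, mul_comm _ (den : ℝ)]
    exact h2
  set B1 := Z.filter (fun z => ∃ i, 6 ≤ i ∧ 2 * i ≤ p + 2 ∧ Sq i z) with hB1
  set B2 := Z.filter (fun z => P.Ex (p + 1) z) with hB2
  have s2 : ∑ z ∈ Z, P.wt (p + 1) z ≤ P.T (p + 1) + ∑ z ∈ B1, P.wt (p + 1) z +
      ∑ z ∈ B2, P.wt (p + 1) z := by
    have hsub : Z ⊆ (P.S (p + 1) ∪ B1) ∪ B2 := by
      intro z hz
      by_cases h1 : ∃ i, 6 ≤ i ∧ 2 * i ≤ p + 2 ∧ Sq i z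
      · exact mem_union_left _ (mem_union_right _ (mem_filter.mpr ⟨hz, h1⟩))
      by_cases h2 : P.Ex (p + 1) z
      · exact mem_union_right _ (mem_filter.mpr ⟨hz, h2⟩)
      obtain ⟨w, hw, u, hu, h3, h4, rfl⟩ := memZ z hz
      refine mem_union_left _ (mem_union_left _ (P.mem_succ.mpr ⟨w, hw, u, hu, ⟨h3, h4, ?_, h2⟩,
        rfl⟩))
      intro i hi1 hi2 hs
      exact h1 ⟨i, hi1, hi2, hs⟩
    have un : ∀ A B : Finset (ℕ → ℕ), ∑ z ∈ A ∪ B, P.wt (p + 1) z ≤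
        ∑ z ∈ A, P.wt (p + 1) z + ∑ z ∈ B, P.wt (p + 1) z := by
      intro A B
      rw [← sum_union_inter]
      have : 0 ≤ ∑ z ∈ A ∩ B, P.wt (p + 1) z := sum_nonneg fun z _ => P.wt_nonneg _ _
      linarith
    have h1 := sum_le_sum_of_subset_of_nonneg (f := P.wt (p + 1)) hsub
      (fun z _ _ => P.wt_nonneg _ _)
    have h2 := un (P.S (p + 1) ∪ B1) B2
    have h3 := un (P.S (p + 1)) B1
    unfold T
    linarith
  have s3 : ∑ z ∈ B1, P.wt (p + 1) z ≤ ∑ i ∈ Icc 6 ((p + 2) / 2), lam i * P.T (p + 1 - i) := by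
    have := cover B1 (P.wt (p + 1)) (Icc 6 ((p + 2) / 2)) (fun i => P.S (p + 1 - i))
      (fun i v k => if k < i then v k else v (k - i))
      (fun i v => lam i * P.wt (p + 1 - i) v)
      (fun i hi v _ => mul_nonneg
        (hlam i (mem_Icc.mp hi).1 (by have := (mem_Icc.mp hi).2; omega)).1 (P.wt_nonneg _ _))
      (by
        intro z hz
        obtain ⟨hz1, i, hi1, hi2, hs⟩ := mem_filter.mp hz
        obtain ⟨w, hw, u, hu, h3, h4, rfl⟩ := memZ z hz1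
        have hv : (fun k => cs u w (k + i)) ∈ P.S (p + 1 - i) := by
          have := P.dr_mem (i - 1) hw (by omega)
          rw [show p + 1 - i = p - (i - 1) by omega]
          convert this using 2 with k
          rw [show k + i = k + (i - 1) + 1 by omega]
          rfl
        refine ⟨i, mem_Icc.mpr ⟨hi1, by omega⟩, _, hv, ?_, ?_⟩
        · funext k
          split_ifs with hk
          · exact hs k hk
          · rw [show k - i + i = k by omega]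
        · have e1 : P.sg (cs u w) = P.sg (fun k => cs u w (k + i)) := by
            refine sig_sq hi1 hs fun j t hj ht hjt => ?_
            have h5 := P.dr_mem (j - 1) hw (by omega)
            have h6 := P.no_sq h5 ht (by omega)
            convert h6 using 3 with k
            rw [show k + j = k + (j - 1) + 1 by omega]
            rfl
          unfold wt
          rw [e1]
          exact (hlam i hi1 hi2).2 _ (P.wt_pos h0 hv))
    refine this.trans (le_of_eq (sum_congr rfl fun i _ => ?_))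
    rw [T, mul_sum]
  have s4 : ∑ z ∈ B2, P.wt (p + 1) z ≤ ∑ e ∈ Ev, mu e * P.T (m e) := by
    have := cover B2 (P.wt (p + 1)) Ev (fun e => P.S (m e)) F
      (fun e v => mu e * P.wt (m e) v)
      (fun e he v _ => mul_nonneg (hmu e he) (P.wt_nonneg _ _))
      (by
        intro z hz
        obtain ⟨hz1, hz2⟩ := mem_filter.mp hz
        obtain ⟨w, hw, u, hu, h3, h4, rfl⟩ := memZ z hz1
        exact hEx w hw u hz2)
    refine this.trans (le_of_eq (sum_congr rfl fun i _ => ?_))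
    rw [T, mul_sum]
  linarith

theorem end_ok {s : St} (hs : dec (key s) = s) (h : 0 < W 3 s) : bad s 0 = false := by
  rcases tree_fact c_end s with h0 | h1
  · unfold W at h; rw [h0, fld_zero] at h; omega
  · rw [hs] at h1
    simp only [Bool.or_eq_true, Bool.not_eq_true'] at h1
    rcases h1 with h1 | h1
    · have := Nat.eq_of_beq_eq_true h1
      unfold W at h; omega
    · exact h1

/-- The last step: the letter `c` can be appended. -/
theorem finish (h0 : 0 < W (P.tab 0) (P.sg P.w0)) (N : ℕ) (hN : P.tab N = 3) (mu : ℕ → ℝ)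
    (hmu : ∀ t, 6 ≤ t → 2 * t ≤ N + 2 → 0 ≤ mu t ∧ ∀ s s' : St, 0 < W (P.tab (N - t)) s →
      (W 3 s' : ℝ) ≤ mu t * W (P.tab (N - t)) s)
    (h : ∑ t ∈ Icc 6 ((N + 2) / 2), mu t * P.T (N - t) < P.T N) :
    ∃ z ∈ P.S N, ∀ t, 1 ≤ t → 2 * t ≤ N + 2 → ¬ Sq t (cs P.c z) := by
  classical
  by_contra hcon
  push Not at hcon
  have := cover (P.S N) (P.wt N) (Icc 6 ((N + 2) / 2)) (fun t => P.S (N - t))
    (fun t v k => if k + 1 < t then v k else if k + 1 = t then P.c else v (k - t))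
    (fun t v => mu t * P.wt (N - t) v)
    (fun t ht v _ => mul_nonneg
      (hmu t (mem_Icc.mp ht).1 (by have := (mem_Icc.mp ht).2; omega)).1 (P.wt_nonneg _ _))
    (by
      intro z hz
      obtain ⟨t, ht1, ht2, hs⟩ := hcon z hz
      have ht6 : 6 ≤ t := by
        by_contra h6
        have h1 := bad_of_sq (c := P.c) (e := P.e) (d := P.d) z P.c ht1 (by omega) hs
        rw [(phi_zero z P.c).mpr rfl] at h1
        have h2 := P.wt_pos h0 hz
        rw [hN] at h2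
        have h3 := end_ok (dec_key z) h2
        rw [h1] at h3
        simp at h3
      have hv := P.dr_mem t hz (by omega)
      refine ⟨t, mem_Icc.mpr ⟨ht6, by omega⟩, _, hv, ?_, ?_⟩
      · funext k
        split_ifs with h1 h2
        · have := hs (k + 1) h1
          rw [show k + 1 + t = k + t + 1 by omega] at this
          exact this
        · have := hs 0 (by omega)
          rw [show 0 + t = k + 1 by omega] at this
          exact this.symm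
        · rw [show k - t + t = k by omega]
      · unfold wt
        rw [hN]
        exact (hmu t ht6 ht2).2 _ _ (P.wt_pos h0 hv))
  have e : ∑ t ∈ Icc 6 ((N + 2) / 2), ∑ v ∈ P.S (N - t), mu t * P.wt (N - t) v =
      ∑ t ∈ Icc 6 ((N + 2) / 2), mu t * P.T (N - t) :=
    sum_congr rfl fun i _ => by rw [T, mul_sum]
  rw [e] at this
  unfold T at h this
  linarith

end Proc

/-- Pointwise relations between the tables. -/
theorem rel_facts (s : St) : W 0 s ≤ 1 ∧ W 1 s ≤ W 2 s ∧ W 2 s ≤ 2051 ∧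
    (0 < W 1 s → 268 ≤ W 1 s) ∧ (0 < W 2 s → 268 ≤ W 2 s) ∧ W 3 s ≤ W 1 s ∧
    (0 < W 1 s → 10 * W 4 s ≤ 22 * W 1 s ∧ 10 * W 5 s ≤ 45 * W 1 s ∧ 10 * W 6 s ≤ 83 * W 1 s ∧
      W 7 s ≤ 16 * W 1 s ∧ W 8 s ≤ 30 * W 1 s) := by
  unfold W
  rcases tree_fact c_rel s with h0 | h1
  · rw [h0]; simp [fld_zero]
  · unfold rel at h1
    simp only [Bool.and_eq_true, Bool.or_eq_true, Nat.ble_eq, Nat.beq_eq] at h1
    omega

theorem W_lt (j : ℕ) (s : St) : W j s < 65536 := Nat.mod_lt _ (by norm_num)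

end Pool.Agent.H21Z.NR
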