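import Pool.Agent.H21Z.NR.CycWord

set_option autoImplicit false

namespace Pool.Agent.H21Z.NR

open Finset

theorem three_colours (A B C : Finset ℕ) (hA : 4 ≤ A.card) (hB : 4 ≤ B.card) (hC : 4 ≤ C.card) :
    ∃ c ∈ A, ∃ e ∈ B, ∃ d ∈ C, c ≠ e ∧ c ≠ d ∧ e ≠ d := by
  obtain ⟨c, hc⟩ : A.Nonempty := card_pos.mp (by omega)
  obtain ⟨e, he⟩ : (B.erase c).Nonempty := card_pos.mp (by have := pred_card_le_card_erase (s := B) (a := c); omega)
  obtain ⟨d, hd⟩ : ((C.erase c).erase e).Nonempty := card_pos.mp (by
    have := pred_card_le_card_erase (s := C) (a := c)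
    have := pred_card_le_card_erase (s := C.erase c) (a := e)
    omega)
  simp only [mem_erase] at he hd
  exact ⟨c, hc, e, he.2, d, hd.2.2, he.1.symm, hd.2.1.symm, hd.1.symm⟩

/-- A cyclic word without squares. -/
theorem cyc_colour (N : ℕ) (L : ℕ → Finset ℕ) (hL : ∀ p, 4 ≤ (L p).card) :
    ∃ Z : ℕ → ℕ, (∀ j < N + 3, Z j ∈ L j) ∧ ∀ s t, 1 ≤ t → 2 * t ≤ N + 3 →
      ¬ ∀ k < t, Z ((s + k) % (N + 3)) = Z ((s + (k + t)) % (N + 3)) := by
  obtain ⟨c, hc, e, he, d, hd, hce, hcd, hed⟩ := three_colours (L 1) (L 0) (L (N + 2)) (hL _)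
    (hL _) (hL _)
  obtain ⟨z, h1, h2, h3, h4, h5⟩ := cyc_word c e d hce hcd hed N (fun p => L (N + 2 - p))
    (fun p => hL _)
  set Z : ℕ → ℕ := cs e (cs c z) with hZ
  have Z0 : Z 0 = e := rfl
  have Z1 : Z 1 = c := rfl
  have Z2 : ∀ j, Z (j + 2) = z j := fun _ => rfl
  refine ⟨Z, fun j hj => ?_, ?_⟩
  · rcases j with _ | _ | j
    · exact he
    · exact hc
    · by_cases hjN : j < N
      · have := h2 j hjN
        rw [show N + 2 - (N - j) = j + 1 + 1 by omega] at this
        exact this
      · obtain rfl : j = N := by omega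
        rw [show j + 1 + 1 = j + 2 by rfl, Z2, h1]
        exact hd
  set y : ℕ → ℕ := fun k => Z (k % (N + 3)) with hy
  have pr : ∀ j, (y j = e ∧ y (j + 1) = c → j % (N + 3) = 0) ∧
      (y j = d ∧ y (j + 1) = e → j % (N + 3) = N + 2) := by
    intro j
    have hr : j % (N + 3) < N + 3 := Nat.mod_lt _ (by omega)
    have e1 : (j + 1) % (N + 3) = (j % (N + 3) + 1) % (N + 3) := by
      rw [Nat.add_mod, Nat.mod_eq_of_lt (show 1 < N + 3 by omega)]
    simp only [hy]
    rw [e1]
    generalize j % (N + 3) = r at hr ⊢
    rcases r with _ | _ | r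
    · refine ⟨fun _ => rfl, fun h => ?_⟩
      rw [Z0] at h
      exact absurd h.1 hed
    · rw [show 0 + 1 = 1 by rfl, Z1]
      exact ⟨fun h => absurd h.1 hce, fun h => absurd h.1 hcd⟩
    · by_cases hrN : r < N
      · rw [Nat.mod_eq_of_lt (show r + 1 + 1 + 1 < N + 3 by omega),
          show r + 1 + 1 + 1 = r + 1 + 2 by rfl, show r + 1 + 1 = r + 2 by rfl, Z2, Z2]
        have := h5 r hrN
        exact ⟨fun h => absurd (Or.inl ⟨h.2, h.1⟩) this, fun h => absurd (Or.inr ⟨h.2, h.1⟩) this⟩
      · obtain rfl : r = N := by omega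
        refine ⟨fun h => ?_, fun _ => rfl⟩
        rw [show r + 1 + 1 = r + 2 by rfl, Z2, h1] at h
        exact absurd h.1.symm hed
  have main : ∀ s t, s < N + 3 → 1 ≤ t → 2 * t ≤ N + 3 →
      ¬ ∀ k < t, y (s + k) = y (s + (k + t)) := by
    intro s t hs ht1 ht2 hsq
    by_cases hin : 1 ≤ s ∧ s + 2 * t ≤ N + 3
    · have hsq' : ∀ k < t, Z (s + k) = Z (s + (k + t)) := by
        intro k hk
        have := hsq k hk
        simp only [hy] at this
        rwa [Nat.mod_eq_of_lt (by omega), Nat.mod_eq_of_lt (by omega)] at this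
      by_cases hs1 : s = 1
      · subst hs1
        refine h4 t ht1 (by omega) fun k hk => ?_
        have := hsq' k hk
        rwa [add_comm 1 k, add_comm 1 (k + t)] at this
      · refine h3 (s - 2) t ht1 (by omega) fun k hk => ?_
        have := hsq' k hk
        rwa [show s + k = k + (s - 2) + 2 by omega,
          show s + (k + t) = k + t + (s - 2) + 2 by omega] at this
    · have hmod : ∀ a, a < N + 3 → (a % (N + 3) = a ∧ (a + (N + 3)) % (N + 3) = a) := by
        intro a ha
        exact ⟨Nat.mod_eq_of_lt ha, by rw [Nat.add_mod_right, Nat.mod_eq_of_lt ha]⟩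
      have ymod : ∀ a, a < N + 3 → y a = Z a ∧ y (a + (N + 3)) = Z a := by
        intro a ha
        simp only [hy]
        rw [(hmod a ha).1, (hmod a ha).2]
        exact ⟨rfl, rfl⟩
      have yd : Z (N + 2) = d := by rw [Z2, h1]
      by_cases hs0 : s = 0
      · subst hs0
        simp only [zero_add] at hsq
        have a0 := hsq 0 (by omega)
        rw [(ymod 0 (by omega)).1, Z0, zero_add] at a0
        by_cases ht : t = 1
        · subst ht
          rw [(ymod 1 (by omega)).1, Z1] at a0
          exact hce a0.symm
        · have a1 := hsq 1 (by omega)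
          rw [(ymod 1 (by omega)).1, Z1, add_comm] at a1
          have := (pr t).1 ⟨a0.symm, a1.symm⟩
          rw [Nat.mod_eq_of_lt (by omega)] at this
          omega
      · have ye : y (N + 3) = e := by have := (ymod 0 (by omega)).2; rwa [zero_add] at this
        have yc : y (N + 3 + 1) = c := by
          have := (ymod 1 (by omega)).2; rwa [add_comm] at this
        have yd' : y (N + 2) = d := by rw [(ymod _ (by omega)).1, yd]
        obtain ⟨k0, hk0⟩ : ∃ k0, s + k0 = N + 3 := ⟨N + 3 - s, by omega⟩
        by_cases hh : k0 < t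
        · have a0 := hsq k0 hh
          have a1 := hsq (k0 - 1) (by omega)
          rw [hk0, ye, show s + (k0 + t) = t - 1 + (N + 3) + 1 by omega] at a0
          rw [show s + (k0 - 1) = N + 2 by omega, yd',
            show s + (k0 - 1 + t) = t - 1 + (N + 3) by omega] at a1
          have := (pr _).2 ⟨a1.symm, a0.symm⟩
          rw [(hmod _ (by omega)).2] at this
          omega
        · by_cases hh2 : k0 = t
          · have a0 := hsq 0 (by omega)
            rw [show s + (0 + t) = N + 3 by omega, ye, add_zero] at a0
            by_cases ht : t = 1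
            · rw [show s = N + 2 by omega, yd'] at a0
              exact hed a0.symm
            · have a1 := hsq 1 (by omega)
              rw [show s + (1 + t) = N + 3 + 1 by omega, yc] at a1
              have := (pr s).1 ⟨a0, a1⟩
              rw [Nat.mod_eq_of_lt hs] at this
              omega
          · have a0 := hsq (k0 - t) (by omega)
            have a1 := hsq (k0 - t - 1) (by omega)
            rw [show s + (k0 - t + t) = N + 3 by omega, ye,
              show s + (k0 - t) = s + (k0 - t - 1) + 1 by omega] at a0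
            rw [show s + (k0 - t - 1 + t) = N + 2 by omega, yd'] at a1
            have := (pr _).2 ⟨a1, a0⟩
            rw [Nat.mod_eq_of_lt (by omega)] at this
            omega
  intro s t ht1 ht2 hsq
  refine main (s % (N + 3)) t (Nat.mod_lt _ (by omega)) ht1 ht2 fun k hk => ?_
  simp only [hy, Nat.mod_add_mod]
  exact hsq k hk

theorem mono_path {n : ℕ} (g : ℕ → Fin (n + 3)) (l : ℕ)
    (hadj : ∀ i < l, g (i + 1) = g i + 1 ∨ g i = g (i + 1) + 1)
    (hinj : ∀ i j, i ≤ l → j ≤ l → g i = g j → i = j) :
    (∀ i < l, g (i + 1) = g i + 1) ∨ (∀ i < l, g i = g (i + 1) + 1) := by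
  by_cases hl : l = 0
  · left; intro i hi; omega
  rcases hadj 0 (by omega) with h0 | h0
  · left
    intro i
    induction i with
    | zero => intro _; exact h0
    | succ i ih =>
      intro hi
      rcases hadj (i + 1) hi with h | h
      · exact h
      · have h1 := ih (by omega)
        rw [h1] at h
        have := hinj _ _ (by omega) (by omega) (add_right_cancel h)
        omega
  · right
    intro i
    induction i with
    | zero => intro _; exact h0
    | succ i ih =>
      intro hi
      rcases hadj (i + 1) hi with h | h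
      · have h1 := ih (by omega)
        rw [← h] at h1
        have := hinj _ _ (by omega) (by omega) h1
        omega
      · exact h

theorem val_path {n : ℕ} (g : ℕ → Fin (n + 3)) (l : ℕ) (h : ∀ i < l, g (i + 1) = g i + 1) :
    ∀ i ≤ l, (g i).val = ((g 0).val + i) % (n + 3) := by
  intro i
  induction i with
  | zero => intro _; rw [add_zero, Nat.mod_eq_of_lt (g 0).isLt]
  | succ i ih =>
    intro hi
    rw [h i (by omega), Fin.val_add, ih (by omega), Fin.val_one, Nat.mod_add_mod, add_assoc]

theorem cycles : ∀ n : ℕ, 3 ≤ n →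
      ∀ L : Fin n → Finset ℕ, (∀ v, 4 ≤ (L v).card) →
        ∃ c : Fin n → ℕ, (∀ v, c v ∈ L v) ∧
          ∀ (u v : Fin n) (p : (SimpleGraph.cycleGraph n).Walk u v),
            p.IsPath → Even p.support.length →
              (p.support.map c).take (p.support.length / 2) ≠
                (p.support.map c).drop (p.support.length / 2) := by
  intro n hn L hL
  obtain ⟨N, rfl⟩ : ∃ N, n = N + 3 := ⟨n - 3, by omega⟩
  obtain ⟨Z, hZ1, hZ2⟩ := cyc_colour N (fun j => L (Fin.ofNat _ j)) (fun j => hL _)
  refine ⟨fun v => Z v.val, fun v => ?_, ?_⟩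
  · have := hZ1 v.val v.isLt
    simpa using this
  intro u v p hp ⟨t, ht⟩ heq
  have hlen := p.length_support
  have hlt := hp.length_lt
  rw [Fintype.card_fin] at hlt
  rw [show p.support.length / 2 = t by omega] at heq
  have rep : ∀ k < t, Z (p.getVert k).val = Z (p.getVert (k + t)).val := by
    intro k hk
    have := List.getElem_of_eq heq (i := k) (by simp; omega)
    simp only [List.getElem_take, List.getElem_drop, List.getElem_map,
      SimpleGraph.Walk.support_getElem_eq_getVert] at this
    rw [add_comm k t]
    exact this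
  have hadj : ∀ i < p.length, p.getVert (i + 1) = p.getVert i + 1 ∨
      p.getVert i = p.getVert (i + 1) + 1 := by
    intro i hi
    have := p.adj_getVert_succ hi
    rw [SimpleGraph.cycleGraph_adj] at this
    rcases this with h | h
    · right; rw [← h]; abel
    · left; rw [← h]; abel
  rcases mono_path p.getVert p.length hadj
    (fun i j hi hj h => hp.getVert_injOn hi hj h) with h | h
  · refine hZ2 (p.getVert 0).val t (by omega) (by omega) fun k hk => ?_
    rw [← val_path p.getVert p.length h k (by omega),
      ← val_path p.getVert p.length h (k + t) (by omega)]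
    exact rep k hk
  · have h' : ∀ i < p.length, p.getVert (p.length - (i + 1)) = p.getVert (p.length - i) + 1 := by
      intro i hi
      have := h (p.length - (i + 1)) (by omega)
      rwa [show p.length - (i + 1) + 1 = p.length - i by omega] at this
    have hv := val_path (fun i => p.getVert (p.length - i)) p.length h'
    refine hZ2 (p.getVert (p.length - 0)).val t (by omega) (by omega) fun k hk => ?_
    rw [← hv k (by omega), ← hv (k + t) (by omega)]
    have := rep (t - 1 - k) (by omega)
    rw [show p.length - k = t - 1 - k + t by omega, show p.length - (k + t) = t - 1 - k by omega]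
    exact this.symm

end Pool.Agent.H21Z.NR
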