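import Pool.Agent.H21Z.NR.Term

set_option autoImplicit false

namespace Pool.Agent.H21Z.NR

open Finset

theorem sig_start {c e d x B : ℕ} (hc : c < B) (he : e < B) (hd : d < B) (hx : x < B) :
    sig c e d (cs x fun k => B + k) = ⟨phi c e d (cs x fun k => B + k) x, 4, 5, 6, 7, 0, 0⟩ := by
  have e1 : ∀ k, cs x (fun k => B + k) (k + 1) = B + k := fun _ => rfl
  unfold sig
  congr 1
  all_goals
    simp only [phi, ix, m4, m5, cs_zero, e1]
    split_ifs <;> omega

theorem geo_sum (T : ℕ → ℝ) (hT : ∀ m, 0 ≤ T m) (n : ℕ)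
    (h : ∀ m < n, 7 / 4 * T m ≤ T (m + 1)) :
    ∀ k ≤ n, ∑ m ∈ Icc 0 k, T m ≤ 7 / 3 * T k := by
  intro k
  induction k with
  | zero => intro _; simp; linarith [hT 0]
  | succ k ih =>
    intro hk
    rw [sum_Icc_succ_top (by omega)]
    have := ih (by omega)
    have := h k (by omega)
    linarith

theorem geo_pow (T : ℕ → ℝ) (n : ℕ) (h : ∀ m < n, 7 / 4 * T m ≤ T (m + 1)) (k : ℕ) :
    ∀ r, k + r ≤ n → T k ≤ (4 / 7) ^ r * T (k + r) := by
  intro r
  induction r with
  | zero => intro _; simp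
  | succ r ih =>
    intro hr
    have h1 := ih (by omega)
    have h2 := h (k + r) (by omega)
    have h3 : T (k + r) ≤ 4 / 7 * T (k + r + 1) := by linarith
    calc T k ≤ (4 / 7) ^ r * T (k + r) := h1
      _ ≤ (4 / 7) ^ r * (4 / 7 * T (k + r + 1)) := mul_le_mul_of_nonneg_left h3 (by positivity)
      _ = _ := by rw [pow_succ, ← add_assoc]; ring

theorem geo_cost (T : ℕ → ℝ) (hT : ∀ m, 0 ≤ T m) (n : ℕ)
    (h : ∀ m < n, 7 / 4 * T m ≤ T (m + 1)) (q K k r : ℕ) (hK : K ≤ 5 ∨ (K ≤ q ∧ q + r = k + 6))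
    (hk : k ≤ n) : ∑ i ∈ Icc 6 K, T (q - i) ≤ 7 / 3 * (4 / 7) ^ r * T k := by
  by_cases h5 : K ≤ 5
  · rw [Icc_eq_empty (by omega), sum_empty]
    have := hT k
    positivity
  · have h1 := sum_reidx T hT q K 0 (by omega)
    have h2 := geo_sum T hT n h (q - 6) (by omega)
    have h3 := geo_pow T n h (q - 6) r (by omega)
    rw [show q - 6 + r = k by omega] at h3
    calc _ ≤ 7 / 3 * T (q - 6) := h1.trans h2
      _ ≤ 7 / 3 * ((4 / 7) ^ r * T k) := by linarith
      _ = _ := by ring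

/-- The process used for cycles. -/
def cycP (c e d : ℕ) (hce : c ≠ e) (hcd : c ≠ d) (hed : e ≠ d) (N : ℕ) (L : ℕ → Finset ℕ) :
    Proc where
  c := c
  e := e
  d := d
  hce := hce
  hcd := hcd
  hed := hed
  w0 := cs d fun k => c + e + d + 1 + k
  L := L
  tab := fun p => if p + 6 ≤ N then 1 else 3 + (N - p)
  X := fun _ _ => ∅
  pair := fun _ => true
  Ex := fun _ _ => False

theorem cyc_exists (c e d : ℕ) (hce : c ≠ e) (hcd : c ≠ d) (hed : e ≠ d) (N : ℕ)
    (L : ℕ → Finset ℕ) (hL : ∀ p, 4 ≤ (L p).card) :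
    ∃ z ∈ (cycP c e d hce hcd hed N L).S N, ∀ t, 1 ≤ t → 2 * t ≤ N + 2 → ¬ Sq t (cs c z) := by
  set P := cycP c e d hce hcd hed N L with hP
  have htab : ∀ p, P.tab p = if p + 6 ≤ N then 1 else 3 + (N - p) := fun _ => rfl
  have h0 : 0 < W (P.tab 0) (P.sg P.w0) := by
    have e1 : P.sg P.w0 = ⟨2, 4, 5, 6, 7, 0, 0⟩ := by
      show sig c e d (cs d fun k => c + e + d + 1 + k) = _
      rw [sig_start (by omega) (by omega) (by omega) (by omega), (phi_two hcd hed _ _).mpr rfl]
    rw [e1, htab]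
    apply start_cyc
    split_ifs with h
    · simp
    · have : N ≤ 5 := by omega
      interval_cases N <;> simp
  have hT0 : 0 < P.T 0 := by
    unfold Proc.T Proc.S
    rw [sum_singleton]
    unfold Proc.wt
    exact_mod_cast h0
  have stp : ∀ (p : ℕ) {num den : ℕ}, 0 < den →
      chk (P.tab p) (P.tab (p + 1)) num den 4 4 true = true → ∀ l : ℝ, 0 ≤ l →
      (∀ i, 6 ≤ i → 2 * i ≤ p + 2 → ∀ s : St, 0 < W (P.tab (p + 1 - i)) s →
        (W (P.tab (p + 1)) s : ℝ) ≤ l * W (P.tab (p + 1 - i)) s) →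
      (num : ℝ) / den * P.T p - l * ∑ i ∈ Icc 6 ((p + 2) / 2), P.T (p + 1 - i) ≤ P.T (p + 1) := by
    intro p num den hden hchk l hl hlam
    have := P.step0 h0 p hden hchk (hL _) (fun _ => rfl) (fun _ => l)
      (fun i h1 h2 => ⟨hl, hlam i h1 h2⟩) (∅ : Finset Unit) (fun _ => 0) (fun _ v => v)
      (fun _ => 0) (by simp) (fun w _ u h => absurd h id)
    rw [sum_empty, sub_zero, ← mul_sum] at this
    exact this
  by_cases hN : N ≤ 5
  · have h1 : ∀ p ≤ N, 0 < P.T p := by
      intro p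
      induction p with
      | zero => intro _; exact hT0
      | succ p ih =>
        intro hp
        have h2 := stp p (num := 1) (den := 1) one_pos (by
          rw [htab, htab, if_neg (by omega), if_neg (by omega),
            show N - p = N - (p + 1) + 1 by omega]
          exact chk_term _ (by omega)) 0 le_rfl (fun i h1 h2 => by omega)
        have := ih (by omega)
        simp at h2
        linarith
    refine P.finish h0 N (by rw [htab, if_neg (by omega)]; simp) (fun _ => 0)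
      (fun t h1 h2 => by omega) ?_
    rw [Icc_eq_empty (by omega), sum_empty]
    exact h1 N le_rfl
  · obtain ⟨n, rfl⟩ : ∃ n, N = n + 6 := ⟨N - 6, by omega⟩
    have t1 : ∀ p ≤ n, P.tab p = 1 := fun p hp => by rw [htab, if_pos (by omega)]
    have grow : ∀ k ≤ n, ∀ m < k, 7 / 4 * P.T m ≤ P.T (m + 1) := by
      intro k
      induction k with
      | zero => intro _ m hm; omega
      | succ k ih =>
        intro hk m hm
        by_cases hmk : m < k
        · exact ih (by omega) m hmk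
        obtain rfl : m = k := by omega
        have h2 := stp m (num := 209) (den := 100) (by norm_num) (by
          rw [t1 m (by omega), t1 (m + 1) hk]; exact c_st) 1 zero_le_one (fun i h1 h2 s _ => by
            rw [t1 (m + 1) hk, t1 (m + 1 - i) (by omega), one_mul])
        have h3 := geo_cost P.T P.T_nonneg m (ih (by omega)) (m + 1) ((m + 2) / 2) m 5
          (by omega) le_rfl
        have h4 := P.T_nonneg m
        push_cast at h2
        have e5 : (7 / 3 : ℝ) * (4 / 7) ^ 5 = 1024 / 7203 := by norm_num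
        rw [e5] at h3
        linarith
    have gr := grow n le_rfl
    have hTn : 0 < P.T n := by
      have := geo_pow P.T n gr 0 n (by omega)
      rw [zero_add] at this
      by_contra hc
      have h1 : P.T n ≤ 0 := not_lt.mp hc
      have h2 : (4 / 7 : ℝ) ^ n * P.T n ≤ 0 := mul_nonpos_of_nonneg_of_nonpos (by positivity) h1
      linarith
    have cst : ∀ j ≤ 5, ∑ i ∈ Icc 6 ((n + 5 - j + 2) / 2), P.T (n + 5 - j + 1 - i) ≤
        7 / 3 * (4 / 7) ^ j * P.T n := fun j hj =>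
      geo_cost P.T P.T_nonneg n gr (n + 5 - j + 1) _ n j (by omega) le_rfl
    have lm : ∀ j ≤ 5, ∀ i, 6 ≤ i → 2 * i ≤ n + 5 - j + 2 → ∀ s : St,
        0 < W (P.tab (n + 5 - j + 1 - i)) s →
        (W (P.tab (n + 5 - j + 1)) s : ℝ) ≤ lamT j * W (P.tab (n + 5 - j + 1 - i)) s := by
      intro j hj i h1 h2 s hs
      rw [t1 (n + 5 - j + 1 - i) (by omega)] at hs ⊢
      rw [htab, if_neg (by omega), show n + 6 - (n + 5 - j + 1) = j by omega]
      exact lamT_le j hj s hs
    have a5 := stp (n + 5 - 5) (num := 47) (den := 1) one_pos (by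
      rw [t1 _ (by omega), htab, if_neg (by omega), show n + 6 - (n + 5 - 5 + 1) = 5 by omega]
      exact c_t6) _ (lamT_nonneg 5) (lm 5 le_rfl)
    have aj : ∀ j < 5, P.T (n + 5 - j) - lamT j * (7 / 3 * (4 / 7) ^ j * P.T n) ≤
        P.T (n + 5 - j + 1) := by
      intro j hj
      have h1 := stp (n + 5 - j) (num := 1) (den := 1) one_pos (by
        rw [htab, htab, if_neg (by omega), if_neg (by omega),
          show n + 6 - (n + 5 - j) = j + 1 by omega, show n + 6 - (n + 5 - j + 1) = j by omega]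
        exact chk_term _ hj) _ (lamT_nonneg j) (lm j hj.le)
      have h2 := mul_le_mul_of_nonneg_left (cst j hj.le) (lamT_nonneg j)
      simp only [Nat.cast_one, div_one, one_mul] at h1
      linarith
    have b5 := mul_le_mul_of_nonneg_left (cst 5 le_rfl) (lamT_nonneg 5)
    have a4 := aj 4 (by norm_num)
    have a3 := aj 3 (by norm_num)
    have a2 := aj 2 (by norm_num)
    have a1 := aj 1 (by norm_num)
    have a0 := aj 0 (by norm_num)
    refine P.finish h0 (n + 6) (by rw [htab, if_neg (by omega)]; simp) (fun _ => 2051 / 268)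
      (fun t h1 h2 => ⟨by norm_num, fun s s' hs => ?_⟩) ?_
    · rw [t1 _ (by omega)] at hs ⊢
      have h3 : (268 : ℝ) ≤ W 1 s := by exact_mod_cast (rel_facts s).2.2.2.1 hs
      have := W3_le s'
      linarith
    · rw [← mul_sum]
      have h1 := geo_cost P.T P.T_nonneg n gr (n + 6) ((n + 6 + 2) / 2) n 0 (by omega) le_rfl
      simp only [show n + 5 - 5 = n by omega, show n + 5 - 4 = n + 1 by omega,
        show n + 5 - 3 = n + 2 by omega, show n + 5 - 2 = n + 3 by omega,
        show n + 5 - 1 = n + 4 by omega, show n + 5 - 0 = n + 5 by omega, lamT] at a0 a1 a2 a3 a4 a5 b5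
      norm_num at a0 a1 a2 a3 a4 a5 b5 h1 ⊢
      linarith

theorem Proc.S_last (P : Proc) : ∀ {p : ℕ} {z : ℕ → ℕ}, z ∈ P.S p → ∀ k, z (p + k) = P.w0 k := by
  intro p z hz k
  have := P.dr_mem p hz le_rfl
  rw [Nat.sub_self, P.mem_zero] at this
  rw [← this, add_comm]

theorem Proc.S_step (P : Proc) {p : ℕ} {z : ℕ → ℕ} (hz : z ∈ P.S p) {j : ℕ} (hj : j < p) :
    z j ∈ P.L (p - j) ∧ P.ok (p - j) (fun k => z (k + j + 1)) (z j) := by
  have := P.dr_mem j hz hj.le
  obtain ⟨q, hq⟩ : ∃ q, p - j = q + 1 := ⟨p - j - 1, by omega⟩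
  rw [hq] at this ⊢
  obtain ⟨w, _, u, hu, hok, h⟩ := P.mem_succ.mp this
  have h1 : z j = u := by have := congrFun h 0; simpa using this
  have h2 : (fun k => z (k + j + 1)) = w := by
    funext k
    have := congrFun h (k + 1)
    rw [show k + j + 1 = k + 1 + j by omega]
    exact this
  rw [h1, h2]
  exact ⟨hu, hok⟩

theorem cyc_word (c e d : ℕ) (hce : c ≠ e) (hcd : c ≠ d) (hed : e ≠ d) (N : ℕ)
    (L : ℕ → Finset ℕ) (hL : ∀ p, 4 ≤ (L p).card) :
    ∃ z : ℕ → ℕ, z N = d ∧ (∀ j < N, z j ∈ L (N - j)) ∧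
      (∀ j t, 1 ≤ t → j + 2 * t ≤ N + 1 → ¬ Sq t (fun k => z (k + j))) ∧
      (∀ t, 1 ≤ t → 2 * t ≤ N + 2 → ¬ Sq t (cs c z)) ∧
      (∀ j < N, ¬ ((z (j + 1) = c ∧ z j = e) ∨ (z (j + 1) = e ∧ z j = d))) := by
  obtain ⟨z, hz, h⟩ := cyc_exists c e d hce hcd hed N L hL
  refine ⟨z, Proc.S_last _ hz 0, fun j hj => (Proc.S_step _ hz hj).1, fun j t h1 h2 => ?_, h,
    fun j hj => ?_⟩
  · exact Proc.no_sq _ (Proc.dr_mem _ j hz (by omega)) h1 (by omega)
  · have := (Proc.vl_pos _ (Proc.S_step _ hz hj).2.2.1).2.1 rfl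
    simpa [cycP] using this

end Pool.Agent.H21Z.NR
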