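import Pool.Agent.H21Z.NR.CycWord
import Pool.Agent.H21Z.NR.C4
import Pool.Agent.H21Z.NR.C5

set_option autoImplicit false

namespace Pool.Agent.H21Z.NR

open Finset

/-- Length of the forbidden border at the position `p`. -/
def bq (p : ℕ) : ℕ := max 2 ((p - 5) / 2)

/-- Positions at which a border is forbidden. -/
def bpos (n0 p : ℕ) : Prop := p ≤ n0 ∧ 7 ≤ p ∧ (p ≤ 9 ∨ p % 2 = 1)

instance (n0 p : ℕ) : Decidable (bpos n0 p) := by unfold bpos; infer_instance

/-- The process used for one half of a subdivided edge. -/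
def halfP (M n0 n a b c e d B : ℕ) (hce : c ≠ e) (hcd : c ≠ d) (hed : e ≠ d)
    (L : ℕ → Finset ℕ) (Gs : Finset ((ℕ → ℕ) → ℕ → ℕ)) : Proc where
  c := c
  e := e
  d := d
  hce := hce
  hcd := hcd
  hed := hed
  w0 := cs b fun k => B + k
  L := L
  tab := fun p => if p ≤ n0 then 0 else if p = n0 + 1 then 2 else if p ≤ n then 1 else
    3 + (n + 6 - p)
  X := fun p w => (if p ≤ 5 then {b} else ∅) ∪
    (if p ≤ n0 ∧ fresh (sig c e d w) = true then {a} else ∅)
  pair := fun p => decide (n0 + 3 ≤ p)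
  Ex := fun p z => (bpos n0 p ∧ z (bq p) = a ∧ ∀ k < bq p, z k = z (p - bq p + 1 + k)) ∨
    (p ≤ n ∧ M + 10 ≤ p ∧ ∃ g ∈ Gs, z = g fun k => z (k + M))

section
variable {M n0 n a b c e d B : ℕ} {hce : c ≠ e} {hcd : c ≠ d} {hed : e ≠ d}
  {L : ℕ → Finset ℕ} {Gs : Finset ((ℕ → ℕ) → ℕ → ℕ)}

theorem tail_mem (P : Proc) {p : ℕ} {w : ℕ → ℕ} (hw : w ∈ P.S p) (u : ℕ) {j : ℕ} (h1 : 1 ≤ j)
    (h2 : j ≤ p + 1) : (fun k => cs u w (k + j)) ∈ P.S (p + 1 - j) := by
  have := P.dr_mem (j - 1) hw (by omega)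
  rw [show p + 1 - j = p - (j - 1) by omega]
  convert this using 2 with k
  rw [show k + j = k + (j - 1) + 1 by omega]
  rfl

theorem one_le_wt (P : Proc) (h0 : 0 < W (P.tab 0) (P.sg P.w0)) {p : ℕ} {z : ℕ → ℕ}
    (hz : z ∈ P.S p) : 1 ≤ P.wt p z := by
  unfold Proc.wt
  exact_mod_cast P.wt_pos h0 hz

theorem half_step (P : Proc) (hP : P = halfP M n0 n a b c e d B hce hcd hed L Gs) (hM : 1 ≤ M)
    (h0 : 0 < W (P.tab 0) (P.sg P.w0)) (p : ℕ) {num den kf kn : ℕ} (hden : 0 < den)
    (hchk : chk (P.tab p) (P.tab (p + 1)) num den kf kn (P.pair (p + 1)) = true)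
    (hcard : ∀ w ∈ P.S p,
      (bif fresh (P.sg w) then kf else kn) ≤ (P.L (p + 1) \ P.X (p + 1) w).card)
    (lam : ℕ → ℝ)
    (hlam : ∀ i, 6 ≤ i → 2 * i ≤ p + 2 → 0 ≤ lam i ∧ ∀ s : St, 0 < W (P.tab (p + 1 - i)) s →
      (W (P.tab (p + 1)) s : ℝ) ≤ lam i * W (P.tab (p + 1 - i)) s) :
    (num : ℝ) / den * P.T p - ∑ i ∈ Icc 6 ((p + 2) / 2), lam i * P.T (p + 1 - i) -
      (if bpos n0 (p + 1) then P.T (p - bq (p + 1)) else 0) -
      (if p + 1 ≤ n ∧ M + 10 ≤ p + 1 then Gs.card * 65536 * P.T (p + 1 - M) else 0) ≤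
      P.T (p + 1) := by
  classical
  have key := P.step h0 p hden hchk hcard lam hlam
    (insertNone (if p + 1 ≤ n ∧ M + 10 ≤ p + 1 then Gs else ∅))
    (fun o => o.elim (p - bq (p + 1)) fun _ => p + 1 - M)
    (fun o => o.elim (fun v k => if k < bq (p + 1) then v (p + 1 - 2 * bq (p + 1) + k) else
      if k = bq (p + 1) then a else v (k - bq (p + 1) - 1)) id)
    (fun o => o.elim (if bpos n0 (p + 1) then 1 else 0) fun _ => 65536)
    (by
      rintro (_ | g) _
      · simp only [Option.elim]; split_ifs <;> norm_num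
      · simp only [Option.elim]; norm_num)
    (by
      intro w hw u hE
      rw [hP] at hE
      rcases hE with ⟨h1, h2, h3⟩ | ⟨h1, h2, g, hg, h3⟩
      · have hq : 2 * bq (p + 1) ≤ p + 1 ∧ 2 ≤ bq (p + 1) := by
          unfold bq; have := h1.2.1; omega
        have hv := tail_mem P hw u (j := bq (p + 1) + 1) (by omega) (by omega)
        rw [show p + 1 - (bq (p + 1) + 1) = p - bq (p + 1) by omega] at hv
        refine ⟨none, by simp, _, hv, ?_, ?_⟩
        · funext k
          simp only [Option.elim]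
          split_ifs with h4 h5
          · rw [h3 k h4]; congr 1; omega
          · rw [h5, h2]
          · congr 1; omega
        · simp only [Option.elim, if_pos h1, one_mul]
          refine le_trans ?_ (one_le_wt P h0 hv)
          unfold Proc.wt
          have e1 : P.tab (p + 1) = 0 := by rw [hP]; exact if_pos h1.1
          rw [e1]
          exact_mod_cast (rel_facts _).1
      · have hv := tail_mem P hw u (j := M) hM (by omega)
        refine ⟨some g, by simp [h1, h2, hg], _, hv, h3, ?_⟩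
        simp only [Option.elim]
        have h4 := one_le_wt P h0 hv
        have h5 : P.wt (p + 1) (cs u w) ≤ 65536 := by
          unfold Proc.wt
          exact_mod_cast (W_lt _ _).le
        linarith)
  rw [sum_insertNone] at key
  simp only [Option.elim, sum_const, nsmul_eq_mul] at key
  split_ifs at key ⊢ <;> (try simp only [card_empty, Nat.cast_zero] at key) <;> linarith

end

end Pool.Agent.H21Z.NR
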