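import Pool.Agent.H21Z.NR.Num

set_option autoImplicit false

namespace Pool.Agent.H21Z.NR

open Finset

theorem ix_start (b c e d x y z t : ℕ) : ix b c e d b x y z t ∈ [0, 1, 2, 3] := by
  unfold ix
  by_cases h0 : b = c
  · simp [h0]
  by_cases h1 : b = e
  · rw [if_neg h0, if_pos h1]; simp
  by_cases h2 : b = d
  · rw [if_neg h0, if_neg h1, if_pos h2]; simp
  · rw [if_neg h0, if_neg h1, if_neg h2, if_pos rfl]; simp

theorem half_exists (M n0 n a b c e d B : ℕ) (hce : c ≠ e) (hcd : c ≠ d) (hed : e ≠ d)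
    (L : ℕ → Finset ℕ) (Gs : Finset ((ℕ → ℕ) → ℕ → ℕ)) (hL : ∀ p, 4 ≤ (L p).card)
    (hM : 2 ≤ M) (hn0 : 20 ≤ n0) (hn : n0 + 31 ≤ n)
    (hC : (Gs.card * 65536 : ℝ) * (4 / 7) ^ (M - 1) ≤ 1 / 1000)
    (hb : b < B) (hc : c < B) (he : e < B) (hd : d < B) :
    ∃ z ∈ (halfP M n0 n a b c e d B hce hcd hed L Gs).S (n + 6),
      ∀ t, 1 ≤ t → 2 * t ≤ n + 6 + 2 → ¬ Sq t (cs c z) := by
  classical
  have hC0 : (0 : ℝ) ≤ Gs.card * 65536 := mul_nonneg (Nat.cast_nonneg _) (by norm_num)
  obtain ⟨P, hP⟩ : ∃ P, P = halfP M n0 n a b c e d B hce hcd hed L Gs := ⟨_, rfl⟩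
  have hPc : P.c = c := by rw [hP]; rfl
  rw [← hP, ← hPc]
  have htab : ∀ p, P.tab p = if p ≤ n0 then 0 else if p = n0 + 1 then 2 else if p ≤ n then 1 else
    3 + (n + 6 - p) := fun _ => by rw [hP]; rfl
  have hX : ∀ p w, P.X p w = (if p ≤ 5 then {b} else ∅) ∪
    (if p ≤ n0 ∧ fresh (P.sg w) = true then {a} else ∅) := fun _ _ => by rw [hP]; rfl
  have hpair : ∀ p, P.pair p = decide (n0 + 3 ≤ p) := fun _ => by rw [hP]; rfl
  have hPL : ∀ p, P.L p = L p := fun _ => by rw [hP]; rfl
  have t0 : ∀ p ≤ n0, P.tab p = 0 := fun p hp => by rw [htab, if_pos hp]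
  have t2 : P.tab (n0 + 1) = 2 := by rw [htab, if_neg (by omega), if_pos rfl]
  have t1 : ∀ p, n0 + 2 ≤ p → p ≤ n → P.tab p = 1 := fun p h1 h2 => by
    rw [htab, if_neg (by omega), if_neg (by omega), if_pos h2]
  have t3 : ∀ j ≤ 5, P.tab (n + 5 - j + 1) = 3 + j := fun j hj => by
    rw [htab, if_neg (by omega), if_neg (by omega), if_neg (by omega)]
    omega
  have h0 : 0 < W (P.tab 0) (P.sg P.w0) := by
    have e1 : P.sg P.w0 = ⟨phi c e d (cs b fun k => B + k) b, 4, 5, 6, 7, 0, 0⟩ := by
      rw [hP]; exact sig_start hc he hd hb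
    rw [e1, t0 0 (by omega), start_leg]
    · norm_num
    · exact ix_start _ _ _ _ _ _ _ _
  have card4 : ∀ p, n0 ≤ p → ∀ w ∈ P.S p,
      (bif fresh (P.sg w) then 4 else 4) ≤ (P.L (p + 1) \ P.X (p + 1) w).card := by
    intro p hp w _
    rw [hX, if_neg (by omega), if_neg (by omega), Bool.cond_self, union_empty, sdiff_empty, hPL]
    exact hL _
  have cardX : ∀ p w, 4 - (P.X p w).card ≤ (P.L p \ P.X p w).card := by
    intro p w
    have h1 := hL p
    have h2 := le_card_sdiff (P.X p w) (P.L p)
    rw [hPL] at h2 ⊢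
    omega
  obtain ⟨U, hU⟩ : ∃ U : ℕ → ℝ, ∀ k, U k = if k ≤ n0 then 900 * P.T k else P.T k :=
    ⟨_, fun _ => rfl⟩
  have U0 : ∀ k ≤ n0, U k = 900 * P.T k := fun k hk => by rw [hU, if_pos hk]
  have U1 : ∀ k, n0 < k → U k = P.T k := fun k hk => by rw [hU, if_neg (by omega)]
  have TU : ∀ k, P.T k ≤ U k := by
    intro k
    have := P.T_nonneg k
    rw [hU]
    split_ifs <;> linarith
  have Un : ∀ k, 0 ≤ U k := fun k => (P.T_nonneg k).trans (TU k)
  have W01 : ∀ s, 0 < W 0 s → (W 0 s : ℝ) = 1 := by
    intro s hs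
    have := (rel_facts s).1
    have : W 0 s = 1 := by omega
    rw [this]; simp
  have stp := fun p num den kf kn hden => half_step (num := num) (den := den) (kf := kf) (kn := kn)
    P hP (by omega) h0 p hden
  have leg : ∀ p num kf kn, p + 1 ≤ n0 →
      chk (P.tab p) (P.tab (p + 1)) num 1 kf kn (P.pair (p + 1)) = true →
      (∀ w ∈ P.S p, (bif fresh (P.sg w) then kf else kn) ≤ (P.L (p + 1) \ P.X (p + 1) w).card) →
      num * U p - ∑ i ∈ Icc 6 ((p + 2) / 2), U (p + 1 - i) -
      (if bpos n0 (p + 1) then U (p - bq (p + 1)) else 0) -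
      (if M + 10 ≤ p + 1 then Gs.card * 65536 * U (p + 1 - M) else 0) ≤ U (p + 1) := by
    intro p num kf kn hp h1 h2
    have h3 := stp p num 1 kf kn one_pos h1 h2 (fun _ => 1) (fun i _ _ => ⟨zero_le_one, fun s _ => by
      rw [t0 _ hp, t0 _ (by omega), one_mul]⟩)
    have e1 : ∑ i ∈ Icc 6 ((p + 2) / 2), U (p + 1 - i) =
        900 * ∑ i ∈ Icc 6 ((p + 2) / 2), 1 * P.T (p + 1 - i) := by
      rw [mul_sum]
      exact sum_congr rfl fun i _ => by rw [U0 _ (by omega), one_mul]
    rw [e1, U0 p (by omega), U0 (p + 1) hp, U0 (p - bq (p + 1)) (by omega),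
      U0 (p + 1 - M) (by omega)]
    have hpn : p + 1 ≤ n := by omega
    simp only [hpn, true_and, Nat.cast_one, div_one] at h3
    split_ifs at h3 ⊢ <;> linarith
  have key := numeric U Un (by
      rw [U0 0 (by omega)]
      have : 0 < P.T 0 := by
        unfold Proc.T Proc.S
        rw [sum_singleton]
        unfold Proc.wt
        exact_mod_cast h0
      linarith) M n0 n hM hn0 hn (Gs.card * 65536) hC0 hC
    (by
      intro p hp
      have := leg p 1 2 3 (by omega) (by
        rw [t0 _ (by omega), t0 _ (by omega), hpair, decide_eq_false (by omega)]; exact c_leg1)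
        (fun w _ => le_trans (by
          rw [hX, if_pos hp]
          cases fresh (P.sg w)
          · simp
          · have := card_union_le ({b} : Finset ℕ) {a}
            rw [if_pos ⟨by omega, rfl⟩, cond_true]
            simp only [card_singleton] at this
            omega) (cardX _ w))
      rw [Icc_eq_empty (by omega), sum_empty, if_neg (by unfold bpos; omega),
        if_neg (by omega)] at this
      simpa using this)
    (by
      intro p hp1 hp2
      have := leg p 2 3 4 hp2 (by
        rw [t0 _ (by omega), t0 _ (by omega), hpair, decide_eq_false (by omega)]; exact c_leg2)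
        (fun w _ => le_trans (by
          rw [hX, if_neg (by omega)]
          cases fresh (P.sg w)
          · simp
          · simp [hp2]) (cardX _ w))
      exact_mod_cast this)
    (by
      intro p hp1 hp2
      have lm : ∀ i, 6 ≤ i → 2 * i ≤ p + 2 → 0 ≤ (if p + 1 - i ≤ n0 then (2051 : ℝ) else 1) ∧
          ∀ s : St, 0 < W (P.tab (p + 1 - i)) s → (W (P.tab (p + 1)) s : ℝ) ≤
            (if p + 1 - i ≤ n0 then (2051 : ℝ) else 1) * W (P.tab (p + 1 - i)) s := by
        intro i h1 h2
        refine ⟨by split_ifs <;> norm_num, fun s hs => ?_⟩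
        obtain ⟨-, r1, r2, -⟩ := rel_facts s
        have r1' : (W 1 s : ℝ) ≤ W 2 s := by exact_mod_cast r1
        have r2' : (W 2 s : ℝ) ≤ 2051 := by exact_mod_cast r2
        split_ifs with h
        · rw [t0 _ h] at hs ⊢
          rw [W01 s hs]
          by_cases h3 : p = n0
          · rw [h3, t2]; linarith
          · rw [t1 _ (by omega) hp2]; linarith
        · rw [t1 (p + 1) (by omega) hp2]
          by_cases h3 : p + 1 - i = n0 + 1
          · rw [h3, t2]; linarith
          · rw [t1 _ (by omega) (by omega)]; linarith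
      have e1 : ∑ i ∈ Icc 6 ((p + 2) / 2), (if p + 1 - i ≤ n0 then (2051 : ℝ) else 1) *
          P.T (p + 1 - i) ≤ 2051 / 900 * ∑ i ∈ Icc 6 ((p + 2) / 2), U (p + 1 - i) := by
        rw [mul_sum]
        refine sum_le_sum fun i _ => ?_
        have := P.T_nonneg (p + 1 - i)
        rw [hU]
        split_ifs <;> linarith
      have e2 : (if p + 1 ≤ n ∧ M + 10 ≤ p + 1 then Gs.card * 65536 * P.T (p + 1 - M) else 0) ≤
          (if M + 10 ≤ p + 1 then Gs.card * 65536 * U (p + 1 - M) else 0) := by
        simp only [hp2, true_and]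
        split_ifs
        · exact mul_le_mul_of_nonneg_left (TU _) hC0
        · exact le_rfl
      have nb : ¬ bpos n0 (p + 1) := by unfold bpos; omega
      rw [U1 (p + 1) (by omega)]
      by_cases h3 : p = n0
      · have := stp p 1900 1 4 4 one_pos (by
          rw [t0 _ (by omega), h3, t2, hpair, decide_eq_false (by omega)]; exact c_sw1)
          (card4 p hp1) _ lm
        rw [if_neg nb] at this
        rw [U0 p (by omega)]
        simp only [Nat.cast_ofNat, Nat.cast_one] at this
        have := P.T_nonneg p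
        linarith
      · have := stp p 209 100 4 4 (by norm_num) (by
          by_cases h4 : p = n0 + 1
          · rw [t1 (p + 1) (by omega) hp2, h4, t2, hpair, decide_eq_false (by omega)]; exact c_sw2
          · rw [t1 (p + 1) (by omega) hp2, t1 p (by omega) (by omega), hpair,
              decide_eq_true (by omega)]; exact c_st)
          (card4 p hp1) _ lm
        rw [if_neg nb] at this
        rw [U1 p (by omega)]
        simp only [Nat.cast_ofNat] at this
        linarith)
    (by
      intro j hj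
      have := stp (n + 5 - j) (if j = 5 then 47 else 1) 1 4 4 one_pos (by
        rw [t3 j hj, hpair, decide_eq_true (by omega)]
        split_ifs with h
        · rw [t1 _ (by omega) (by omega), h]; exact c_t6
        · rw [show n + 5 - j = n + 5 - (j + 1) + 1 by omega, t3 (j + 1) (by omega)]
          exact chk_term j (by omega))
        (card4 _ (by omega))
        (fun i => lamT j + if n + 5 - j + 1 - i ≤ n0 + 1 then 65536 else 0) (by
          intro i h1 h2
          have l0 := lamT_nonneg j
          refine ⟨by split_ifs <;> linarith, fun s hs => ?_⟩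
          rw [t3 j hj]
          split_ifs with h
          · have h3 : (1 : ℝ) ≤ W (P.tab (n + 5 - j + 1 - i)) s := by exact_mod_cast hs
            have h4 : (W (3 + j) s : ℝ) ≤ 65536 := by exact_mod_cast (W_lt _ _).le
            nlinarith
          · rw [t1 _ (by omega) (by omega)] at hs ⊢
            rw [add_zero]
            exact lamT_le j hj s hs)
      rw [if_neg (show ¬ bpos n0 (n + 5 - j + 1) by unfold bpos; omega),
        if_neg (show ¬ (n + 5 - j + 1 ≤ n ∧ M + 10 ≤ n + 5 - j + 1) by omega)] at this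
      have e1 : ∑ i ∈ Icc 6 ((n + 5 - j + 2) / 2),
          (lamT j + if n + 5 - j + 1 - i ≤ n0 + 1 then 65536 else 0) * P.T (n + 5 - j + 1 - i) ≤
          lamT j * ∑ i ∈ Icc 6 ((n + 5 - j + 2) / 2), U (n + 5 - j + 1 - i) +
          65536 * ∑ i ∈ Icc 6 ((n + 5 - j + 2) / 2),
            (if n + 5 - j + 1 - i ≤ n0 + 1 then U (n + 5 - j + 1 - i) else 0) := by
        rw [mul_sum, mul_sum, ← sum_add_distrib]
        refine sum_le_sum fun i _ => ?_
        have h1 := TU (n + 5 - j + 1 - i)
        have h2 := mul_le_mul_of_nonneg_left h1 (lamT_nonneg j)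
        split_ifs <;> linarith
      rw [U1 (n + 5 - j) (by omega), U1 (n + 5 - j + 1) (by omega)]
      simp only [Nat.cast_ite, Nat.cast_ofNat, Nat.cast_one, div_one] at this
      linarith)
  refine P.finish h0 (n + 6) (by
      have := t3 0 (by omega)
      rwa [show n + 5 - 0 + 1 = n + 6 by omega] at this)
    (fun t => if n + 6 - t ≤ n0 then 2051 else 2051 / 268) (fun t h1 h2 => ⟨by
      split_ifs <;> norm_num, fun s s' hs => ?_⟩) ?_
  · have h3 := W3_le s'
    split_ifs with h
    · rw [t0 _ h] at hs ⊢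
      rw [W01 s hs]; linarith
    · have h4 : (268 : ℝ) ≤ W (P.tab (n + 6 - t)) s := by
        by_cases h5 : n + 6 - t = n0 + 1
        · rw [h5, t2] at hs ⊢
          exact_mod_cast (rel_facts s).2.2.2.2.1 hs
        · rw [t1 _ (by omega) (by omega)] at hs ⊢
          exact_mod_cast (rel_facts s).2.2.2.1 hs
      linarith
  · rw [U1 (n + 6) (by omega), mul_sum] at key
    refine lt_of_le_of_lt (sum_le_sum fun t _ => ?_) key
    have := P.T_nonneg (n + 6 - t)
    rw [hU]
    split_ifs <;> linarith

end Pool.Agent.H21Z.NR
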