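import Pool.Agent.H21Z.NR.HalfEx

set_option autoImplicit false

namespace Pool.Agent.H21Z.NR

open Finset

/-- The properties of the colours along one half of a subdivided edge. -/
structure Good (M n0 n a c e d : ℕ) (L : ℕ → Finset ℕ) (y : ℕ → ℕ) : Prop where
  h0 : y 0 = a
  hc : y (n + 8) = c
  mem : ∀ j, 1 ≤ j → j ≤ n + 7 → y j ∈ L j
  r0 : y 1 ≠ a
  r2 : ∀ j, 2 ≤ j → j ≤ 6 → y j ≠ y 1
  r1 : ∀ j, 2 ≤ j → j ≤ n0 + 1 → y j = a → ∃ s, 2 ≤ s ∧ s ≤ 5 ∧ s + 2 ≤ j ∧ y (j - 1) = y (j - 1 - s)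
  bord : ∀ t, 6 ≤ t → 2 * t ≤ n0 → y t = a → ¬ ∀ i, 1 ≤ i → i ≤ max 2 (t - 6) → y (t + i) = y i
  sq : ∀ j t, 1 ≤ j → 1 ≤ t → j + 2 * t ≤ n + 9 → ¬ ∀ k < t, y (j + k) = y (j + k + t)
  pr : ∀ j, n0 + 3 ≤ j → j ≤ n + 6 → ¬ ((y j = c ∧ y (j + 1) = e) ∨ (y j = e ∧ y (j + 1) = d))
  int : ∀ α β, 12 ≤ α → α + M ≤ n + 2 → 1 ≤ β → β + M ≤ α →
    (¬ ∀ k < M, y (α + k) = y (β + k)) ∧ ¬ ∀ k < M, y (α + k) = y (β + M - 1 - k)

theorem half_word (M n0 n a c e d : ℕ) (hce : c ≠ e) (hcd : c ≠ d) (hed : e ≠ d)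
    (L : ℕ → Finset ℕ) (R : Finset (ℕ → ℕ)) (hL : ∀ p, 4 ≤ (L p).card)
    (hM : 2 ≤ M) (hn0 : 20 ≤ n0) (hn : n0 + 31 ≤ n)
    (hC : ((R.card + 2 * (n + 1) : ℕ) * 65536 : ℝ) * (4 / 7) ^ (M - 1) ≤ 1 / 1000) :
    ∃ y, Good M n0 n a c e d L y ∧
      ∀ r ∈ R, ∀ α, 12 ≤ α → α + M ≤ n + 2 → ¬ ∀ k < M, y (α + k) = r k := by
  classical
  obtain ⟨b, hbL, hba⟩ : ∃ b ∈ L 1, b ≠ a := by
    have := hL 1
    exact exists_mem_ne (by omega) a
  obtain ⟨B, hB, hcB, heB, hdB⟩ : ∃ B, (∀ j ≤ n + 7, ∀ x ∈ L j, x < B) ∧ c < B ∧ e < B ∧ d < B := by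
    refine ⟨c + e + d + ∑ j ∈ range (n + 8), ∑ x ∈ L j, x + 1, fun j hj x hx => ?_, by omega,
      by omega, by omega⟩
    have h1 : x ≤ ∑ x ∈ L j, x := single_le_sum (f := fun x => x) (fun _ _ => Nat.zero_le _) hx
    have h2 : ∑ x ∈ L j, x ≤ ∑ j ∈ range (n + 8), ∑ x ∈ L j, x :=
      single_le_sum (f := fun j => ∑ x ∈ L j, x) (fun _ _ => Nat.zero_le _)
        (mem_range.mpr (by omega))
    omega
  obtain ⟨Gs, hG, g1, g2, g3⟩ : ∃ Gs : Finset ((ℕ → ℕ) → ℕ → ℕ), Gs.card ≤ R.card + 2 * (n + 1) ∧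
      (∀ r ∈ R, (fun v k => if k < M then r (M - 1 - k) else v (k - M)) ∈ Gs) ∧
      (∀ j ≤ n, (fun v k => if k < M then v (j + k) else v (k - M)) ∈ Gs) ∧
      (∀ j ≤ n, (fun v k => if k < M then v (j + M - 1 - k) else v (k - M)) ∈ Gs) := by
    refine ⟨R.image (fun r v k => if k < M then r (M - 1 - k) else v (k - M)) ∪
      ((range (n + 1)).image (fun j v k => if k < M then v (j + k) else v (k - M)) ∪
      (range (n + 1)).image (fun j v k => if k < M then v (j + M - 1 - k) else v (k - M))), ?_,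
      fun r hr => mem_union_left _ (mem_image_of_mem _ hr),
      fun j hj => mem_union_right _ (mem_union_left _ (mem_image_of_mem _ (mem_range.mpr (by omega)))),
      fun j hj => mem_union_right _ (mem_union_right _
        (mem_image_of_mem _ (mem_range.mpr (by omega))))⟩
    refine (card_union_le _ _).trans (add_le_add card_image_le ((card_union_le _ _).trans ?_))
    refine (add_le_add card_image_le card_image_le).trans ?_
    rw [card_range]; omega
  obtain ⟨z, hz, hfin⟩ := half_exists M n0 n a b c e d B hce hcd hed (fun p => L (p + 1)) Gs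
    (fun p => hL _) hM hn0 hn (le_trans (mul_le_mul_of_nonneg_right (mul_le_mul_of_nonneg_right
      (by exact_mod_cast hG) (by norm_num)) (pow_nonneg (by norm_num) _)) hC)
    (hB 1 (by omega) b hbL) hcB heB hdB
  obtain ⟨P, hP⟩ : ∃ P, P = halfP M n0 n a b c e d B hce hcd hed (fun p => L (p + 1)) Gs :=
    ⟨_, rfl⟩
  rw [← hP] at hz
  have zb : z (n + 6) = b := by
    have := P.S_last hz 0
    rw [hP] at this
    exact this
  have zpad : ∀ k, n + 6 < k → B ≤ z k := by
    intro k hk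
    have := P.S_last hz (k - (n + 7) + 1)
    rw [hP, show n + 6 + (k - (n + 7) + 1) = k by omega] at this
    rw [this]
    exact Nat.le_add_right _ _
  have st : ∀ p, 1 ≤ p → p ≤ n + 6 → z (n + 6 - p) ∈ L (p + 1) ∧
      P.ok p (fun k => z (k + (n + 6 - p) + 1)) (z (n + 6 - p)) := by
    intro p h1 h2
    have := P.S_step hz (j := n + 6 - p) (by omega)
    rw [show n + 6 - (n + 6 - p) = p by omega] at this
    refine ⟨?_, this.2⟩
    have h3 := this.1
    rw [hP] at h3
    exact h3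
  have csz : ∀ j, cs (z j) (fun k => z (k + j + 1)) = fun k => z (k + j) := by
    intro j
    funext k
    cases k with
    | zero => simp
    | succ k => simp only [cs_succ]; congr 1; omega
  have nEx : ∀ p, 1 ≤ p → p ≤ n + 6 → ¬ P.Ex p (fun k => z (k + (n + 6 - p))) := by
    intro p h1 h2
    rw [← csz]
    exact (st p h1 h2).2.2.2.2
  obtain ⟨y, y0, yz, yc⟩ : ∃ y : ℕ → ℕ, y 0 = a ∧ (∀ j k, 1 ≤ j → j + k = n + 7 → y j = z k) ∧
      y (n + 8) = c := by
    refine ⟨fun j => if j = 0 then a else if j ≤ n + 7 then z (n + 7 - j) else c, by simp,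
      fun j k h1 h2 => ?_, by simp⟩
    simp only
    rw [if_neg (by omega), if_pos (by omega), show n + 7 - j = k by omega]
  have y1 : y 1 = b := by rw [yz 1 (n + 6) le_rfl (by omega), zb]
  have ymem : ∀ j, 1 ≤ j → j ≤ n + 7 → y j ∈ L j := by
    intro j h1 h2
    by_cases h : j = 1
    · rw [h, y1]; exact hbL
    · have := (st (j - 1) (by omega) (by omega)).1
      rw [show j - 1 + 1 = j by omega] at this
      rw [yz j (n + 6 - (j - 1)) h1 (by omega)]
      exact this
  have rep : ∀ α, 12 ≤ α → α + M ≤ n + 2 → ∀ g ∈ Gs,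
      ¬ ((fun k => z (k + (n + 8 - α - M))) = g fun k => z (k + M + (n + 8 - α - M))) := by
    intro α h1 h2 g hg h
    apply nEx (α + M - 2) (by omega) (by omega)
    rw [hP, show n + 6 - (α + M - 2) = n + 8 - α - M by omega]
    exact Or.inr ⟨by omega, by omega, g, hg, h⟩
  refine ⟨y, ⟨y0, yc, ymem, by rw [y1]; exact hba, ?_, ?_, ?_, ?_, ?_, ?_⟩, ?_⟩
  · intro j h1 h2 h3
    have := (st (j - 1) (by omega) (by omega)).2.1
    apply this
    rw [hP, ← yz j _ (by omega) (by omega), h3, y1]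
    exact mem_union_left _ (by rw [if_pos (by omega)]; simp)
  · intro j h1 h2 h3
    have h4 := (st (j - 1) (by omega) (by omega)).2.1
    rw [← yz j _ (by omega) (by omega), h3] at h4
    have h5 : ¬ fresh (sig c e d fun k => z (k + (n + 6 - (j - 1)) + 1)) = true := by
      intro h5
      apply h4
      rw [hP]
      exact mem_union_right _ (by rw [if_pos ⟨by omega, h5⟩]; simp)
    rw [fresh_iff] at h5
    obtain ⟨s, s2, s5, hs⟩ : ∃ s, 2 ≤ s ∧ s ≤ 5 ∧
        z (0 + (n + 6 - (j - 1)) + 1) = z (s + (n + 6 - (j - 1)) + 1) := by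
      by_contra hcon
      push Not at hcon
      exact h5 ⟨hcon 2 (by omega) (by omega), hcon 3 (by omega) (by omega),
        hcon 4 (by omega) (by omega), hcon 5 (by omega) (by omega)⟩
    rw [← yz (j - 1) _ (by omega) (by omega)] at hs
    by_cases h6 : s + 2 ≤ j
    · exact ⟨s, s2, s5, h6, hs.trans (yz (j - 1 - s) _ (by omega) (by omega)).symm⟩
    · have h7 := zpad (s + (n + 6 - (j - 1)) + 1) (by omega)
      have h8 := hB (j - 1) (by omega) _ (ymem (j - 1) (by omega) (by omega))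
      omega
  · intro t h1 h2 h3 h4
    apply nEx (t - 1 + max 2 (t - 6)) (by omega) (by omega)
    have e1 : bq (t - 1 + max 2 (t - 6)) = max 2 (t - 6) := by unfold bq; omega
    rw [hP]
    refine Or.inl ⟨by unfold bpos; omega, ?_, fun k hk => ?_⟩
    · beta_reduce
      rw [e1, ← yz t _ (by omega) (by omega), h3]
    · rw [e1] at hk ⊢
      beta_reduce
      rw [← yz (t + (max 2 (t - 6) - k)) _ (by omega) (by omega),
        ← yz (max 2 (t - 6) - k) _ (by omega) (by omega)]
      exact h4 _ (by omega) (by omega)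
  · intro j t h1 h2 h3 h4
    have yc' : ∀ i k, 1 ≤ i → i + k = n + 8 → y i = cs c z k := by
      intro i k h5 h6
      cases k with
      | zero => rw [show i = n + 8 by omega, yc]; rfl
      | succ k => exact yz i k h5 (by omega)
    by_cases h5 : j + 2 * t = n + 9
    · refine hfin t h2 (by omega) fun k hk => ?_
      rw [← yc' (j + (t - 1 - k) + t) k (by omega) (by omega),
        ← yc' (j + (t - 1 - k)) (k + t) (by omega) (by omega)]
      exact (h4 _ (by omega)).symm
    · refine P.no_sq (P.dr_mem (n + 8 - j - 2 * t) hz (by omega)) h2 (by omega) fun k hk => ?_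
      beta_reduce
      rw [← yz (j + (t - 1 - k) + t) _ (by omega) (by omega),
        ← yz (j + (t - 1 - k)) _ (by omega) (by omega)]
      exact (h4 _ (by omega)).symm
  · intro j h1 h2
    have h3 := (P.vl_pos (st j (by omega) h2).2.2.1).2.1 (by
      rw [hP]; exact decide_eq_true h1)
    rw [yz j (0 + (n + 6 - j) + 1) (by omega) (by omega), yz (j + 1) (n + 6 - j) (by omega) (by omega)]
    rw [hP] at h3
    exact h3
  · intro α β h1 h2 h3 h4
    constructor
    · intro h5
      apply rep α h1 h2 _ (g2 (α - β - M) (by omega))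
      funext k
      beta_reduce
      split_ifs with hk
      · rw [← yz (α + (M - 1 - k)) _ (by omega) (by omega),
          ← yz (β + (M - 1 - k)) _ (by omega) (by omega)]
        exact h5 _ (by omega)
      · congr 1; omega
    · intro h5
      apply rep α h1 h2 _ (g3 (α - β - M) (by omega))
      funext k
      beta_reduce
      split_ifs with hk
      · rw [← yz (α + (M - 1 - k)) _ (by omega) (by omega),
          ← yz (β + M - 1 - (M - 1 - k)) _ (by omega) (by omega)]
        exact h5 _ (by omega)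
      · congr 1; omega
  · intro r hr α h1 h2 h5
    apply rep α h1 h2 _ (g1 r hr)
    funext k
    split_ifs with hk
    · rw [← yz (α + (M - 1 - k)) _ (by omega) (by omega)]
      exact h5 _ (by omega)
    · congr 1; omega

end Pool.Agent.H21Z.NR
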