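import Pool.Agent.H21Z.NR.Chk

set_option autoImplicit false

namespace Pool.Agent.H21Z.NR

open Finset

/-- Words are read backwards: `w 0` is the last letter. `cs u w` appends the letter `u`. -/
def cs (u : ℕ) (w : ℕ → ℕ) : ℕ → ℕ
  | 0 => u
  | k + 1 => w k

@[simp] theorem cs_zero (u : ℕ) (w : ℕ → ℕ) : cs u w 0 = u := rfl
@[simp] theorem cs_succ (u : ℕ) (w : ℕ → ℕ) (k : ℕ) : cs u w (k + 1) = w k := rfl

def phi (c e d : ℕ) (w : ℕ → ℕ) (x : ℕ) : ℕ := ix x c e d (w 0) (w 1) (w 2) (w 3) (w 4)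

def m4 (w : ℕ → ℕ) : ℕ :=
  if w 0 = w 4 then if w 1 = w 5 then if w 2 = w 6 then 3 else 2 else 1 else 0

def m5 (w : ℕ → ℕ) : ℕ :=
  if w 0 = w 5 then if w 1 = w 6 then if w 2 = w 7 then if w 3 = w 8 then 4 else 3 else 2
    else 1 else 0

def sig (c e d : ℕ) (w : ℕ → ℕ) : St :=
  ⟨phi c e d w (w 0), phi c e d w (w 1), phi c e d w (w 2), phi c e d w (w 3), phi c e d w (w 4),
    m4 w, m5 w⟩

theorem ix_le (x a0 a1 a2 a3 a4 a5 a6 a7 : ℕ) : ix x a0 a1 a2 a3 a4 a5 a6 a7 ≤ 8 := by
  unfold ix; split_ifs <;> omega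

theorem ix_lt_iff (x a0 a1 a2 a3 a4 a5 a6 a7 : ℕ) : ix x a0 a1 a2 a3 a4 a5 a6 a7 < 8 ↔
    (x = a0 ∨ x = a1 ∨ x = a2 ∨ x = a3 ∨ x = a4 ∨ x = a5 ∨ x = a6 ∨ x = a7) := by
  unfold ix; split_ifs <;> simp [*]

/-- Decoding an index. -/
def un (k a0 a1 a2 a3 a4 a5 a6 a7 : ℕ) : ℕ :=
  if k = 0 then a0 else if k = 1 then a1 else if k = 2 then a2 else if k = 3 then a3 else
  if k = 4 then a4 else if k = 5 then a5 else if k = 6 then a6 else a7

theorem un_ix (x a0 a1 a2 a3 a4 a5 a6 a7 : ℕ) (h : ix x a0 a1 a2 a3 a4 a5 a6 a7 < 8) :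
    un (ix x a0 a1 a2 a3 a4 a5 a6 a7) a0 a1 a2 a3 a4 a5 a6 a7 = x := by
  unfold ix at h ⊢
  split_ifs at h ⊢ <;> simp_all [un]

theorem ix_inj {x y a0 a1 a2 a3 a4 a5 a6 a7 : ℕ} (h : ix y a0 a1 a2 a3 a4 a5 a6 a7 < 8)
    (hxy : ix x a0 a1 a2 a3 a4 a5 a6 a7 = ix y a0 a1 a2 a3 a4 a5 a6 a7) : x = y := by
  have h1 := un_ix y a0 a1 a2 a3 a4 a5 a6 a7 h
  have h2 := un_ix x a0 a1 a2 a3 a4 a5 a6 a7 (hxy ▸ h)
  rw [hxy] at h2
  rw [← h1, ← h2]

section
variable {c e d : ℕ}

theorem phi_lt (w : ℕ → ℕ) {k : ℕ} (hk : k < 5) : phi c e d w (w k) < 8 := by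
  unfold phi
  rw [ix_lt_iff]
  interval_cases k <;> simp

theorem phi_eq (w : ℕ → ℕ) (x : ℕ) {k : ℕ} (hk : k < 5) :
    phi c e d w x = phi c e d w (w k) ↔ x = w k :=
  ⟨fun h => ix_inj (phi_lt w hk) h, fun h => by rw [h]⟩

theorem phi_eq' (w : ℕ → ℕ) (x : ℕ) {k : ℕ} (hk : k < 5) :
    phi c e d w (w k) = phi c e d w x ↔ w k = x := by
  rw [eq_comm, phi_eq w x hk, eq_comm]

theorem phi_zero (w : ℕ → ℕ) (x : ℕ) : phi c e d w x = 0 ↔ x = c := by
  unfold phi ix; split_ifs <;> simp_all

theorem phi_one (hce : c ≠ e) (w : ℕ → ℕ) (x : ℕ) : phi c e d w x = 1 ↔ x = e := by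
  unfold phi ix; split_ifs <;> simp_all

theorem phi_two (hcd : c ≠ d) (hed : e ≠ d) (w : ℕ → ℕ) (x : ℕ) :
    phi c e d w x = 2 ↔ x = d := by
  unfold phi ix; split_ifs <;> simp_all

theorem sig_cs (hce : c ≠ e) (hcd : c ≠ d) (hed : e ≠ d) (w : ℕ → ℕ) (u : ℕ) :
    sig c e d (cs u w) = delta (sig c e d w) (phi c e d w u) := by
  have key : ∀ x, (x = u ∨ ∃ k < 5, x = w k) →
      ix x c e d u (w 0) (w 1) (w 2) (w 3) =
      ix (phi c e d w x) 0 1 2 (phi c e d w u) (phi c e d w (w 0)) (phi c e d w (w 1))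
        (phi c e d w (w 2)) (phi c e d w (w 3)) := by
    intro x hx
    have hu : phi c e d w x = phi c e d w u ↔ x = u := by
      rcases hx with rfl | ⟨k, hk, rfl⟩
      · simp
      · exact phi_eq' w u hk
    unfold ix
    simp only [phi_zero, phi_one hce, phi_two hcd hed, hu, phi_eq w x (show 0 < 5 by norm_num),
      phi_eq w x (show 1 < 5 by norm_num), phi_eq w x (show 2 < 5 by norm_num),
      phi_eq w x (show 3 < 5 by norm_num)]
  have e4 : m4 (cs u w) = if phi c e d w u = phi c e d w (w 3) then min (m4 w + 1) 3 else 0 := by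
    simp only [phi_eq w u (show 3 < 5 by norm_num)]
    show (if u = w 3 then if w 0 = w 4 then if w 1 = w 5 then 3 else 2 else 1 else 0) = _
    unfold m4
    split_ifs <;> rfl
  have e5 : m5 (cs u w) = if phi c e d w u = phi c e d w (w 4) then min (m5 w + 1) 4 else 0 := by
    simp only [phi_eq w u (show 4 < 5 by norm_num)]
    show (if u = w 4 then if w 0 = w 5 then if w 1 = w 6 then if w 2 = w 7 then 4 else 3 else 2
      else 1 else 0) = _
    unfold m5
    split_ifs <;> rfl
  unfold sig delta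
  simp only [e4, e5]
  congr 1
  · exact key u (Or.inl rfl)
  · exact key (w 0) (Or.inr ⟨0, by norm_num, rfl⟩)
  · exact key (w 1) (Or.inr ⟨1, by norm_num, rfl⟩)
  · exact key (w 2) (Or.inr ⟨2, by norm_num, rfl⟩)
  · exact key (w 3) (Or.inr ⟨3, by norm_num, rfl⟩)

theorem m4_le (w : ℕ → ℕ) : m4 w ≤ 3 := by unfold m4; split_ifs <;> omega

theorem dec_key (w : ℕ → ℕ) : dec (key (sig c e d w)) = sig c e d w := by
  have h0 := phi_lt (c := c) (e := e) (d := d) w (show 0 < 5 by norm_num)
  have h1 := phi_lt (c := c) (e := e) (d := d) w (show 1 < 5 by norm_num)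
  have h2 := phi_lt (c := c) (e := e) (d := d) w (show 2 < 5 by norm_num)
  have h3 := phi_lt (c := c) (e := e) (d := d) w (show 3 < 5 by norm_num)
  have h4 := phi_lt (c := c) (e := e) (d := d) w (show 4 < 5 by norm_num)
  have h5 := m4_le w
  unfold dec key sig
  simp only
  congr 1 <;> omega

theorem occ_phi (w : ℕ → ℕ) (u : ℕ) (h : phi c e d w u < 8) :
    occ (sig c e d w) (phi c e d w u) = true := by
  have h' := h
  unfold phi at h'
  rw [ix_lt_iff] at h'
  unfold occ sig
  simp only [Bool.or_eq_true, beq_iff_eq]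
  rcases h' with h' | h' | h' | h' | h' | h' | h' | h'
  · have : phi c e d w u = 0 := (phi_zero w u).mpr h'
    simp [this]
  · have : phi c e d w u = 0 ∨ phi c e d w u = 1 := by
      unfold phi ix; split_ifs <;> simp_all
    rcases this with h | h <;> simp [h]
  · have : phi c e d w u = 0 ∨ phi c e d w u = 1 ∨ phi c e d w u = 2 := by
      unfold phi ix; split_ifs <;> simp_all
    rcases this with h | h | h <;> simp [h]
  all_goals simp [h']

theorem th_sound {A num den k : ℕ} (mv : ℕ → ℕ) (g t : ℕ) (φ : ℕ → ℕ) (vl : ℕ → ℕ)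
    (L : Finset ℕ) (hL : k ≤ L.card) (hle : ∀ u, φ u ≤ 8) (hinj : ∀ x y, φ y < 8 → φ x = φ y → x = y)
    (hmv : ∀ u, φ u < 8 → mv (φ u) = vl (φ u)) (hg : vl 8 = g)
    (h : th A num den k (mv 0) (mv 1) (mv 2) (mv 3) (mv 4) (mv 5) (mv 6) (mv 7) g t = true) :
    num * A ≤ den * ∑ u ∈ L, vl (φ u) := by
  unfold th at h
  simp only [Bool.and_eq_true, Nat.ble_eq] at h
  obtain ⟨h1, h2⟩ := h
  have s1 : ∑ u ∈ L, (t - vl (φ u)) ≤ ∑ κ ∈ range 8, (t - mv κ) := by
    calc ∑ u ∈ L, (t - vl (φ u)) = ∑ u ∈ L.filter (fun u => φ u < 8), (t - mv (φ u)) := by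
          rw [sum_filter]
          refine sum_congr rfl fun u _ => ?_
          split_ifs with hu
          · rw [hmv u hu]
          · have : φ u = 8 := by have := hle u; omega
            rw [this, hg]; omega
      _ = ∑ κ ∈ (L.filter (fun u => φ u < 8)).image φ, (t - mv κ) := by
          rw [sum_image]
          intro x _ y hy hxy
          exact hinj x y (mem_filter.mp hy).2 hxy
      _ ≤ ∑ κ ∈ range 8, (t - mv κ) := by
          refine sum_le_sum_of_subset fun κ hκ => ?_
          obtain ⟨u, hu, rfl⟩ := mem_image.mp hκ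
          exact mem_range.mpr (mem_filter.mp hu).2
  have s2 : k * t ≤ ∑ u ∈ L, vl (φ u) + ∑ u ∈ L, (t - vl (φ u)) := by
    rw [← sum_add_distrib]
    calc k * t ≤ L.card * t := Nat.mul_le_mul_right _ hL
      _ = ∑ _u ∈ L, t := by simp
      _ ≤ _ := sum_le_sum fun u _ => by omega
  simp only [sum_range_succ, range_zero, sum_empty, zero_add] at s1
  have s3 : den * (k * t) ≤ den * (∑ u ∈ L, vl (φ u) + ((t - mv 0) + (t - mv 1) + (t - mv 2) +
      (t - mv 3) + (t - mv 4) + (t - mv 5) + (t - mv 6) + (t - mv 7))) :=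
    Nat.mul_le_mul_left _ (by omega)
  rw [Nat.mul_add] at s3
  omega

theorem tree_fact {P : ℕ → ℕ → Bool} (h : tree.all P = true) (s : St) :
    tree.get (key s) = 0 ∨ P (key s) (tree.get (key s)) = true := Tr.all_get P _ _ h

theorem local_ineq {a b num den kf kn : ℕ} {pair : Bool} (h : chk a b num den kf kn pair = true)
    (w : ℕ → ℕ) (L : Finset ℕ) (hL : (bif fresh (sig c e d w) then kf else kn) ≤ L.card) :
    num * W a (sig c e d w) ≤ den * ∑ u ∈ L, val b pair (sig c e d w) (phi c e d w u) := by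
  rcases tree_fact h (sig c e d w) with h0 | h1
  · have : W a (sig c e d w) = 0 := by unfold W; rw [h0, fld_zero]
    rw [this]; simp
  · rw [dec_key] at h1
    unfold chkS at h1
    rw [Bool.or_eq_true] at h1
    rcases h1 with h1 | h1
    · have : W a (sig c e d w) = 0 := Nat.eq_of_beq_eq_true h1
      rw [this]; simp
    · have hs := fun t => th_sound (A := W a (sig c e d w)) (num := num) (den := den)
        (mval b pair (sig c e d w)) (val b pair (sig c e d w) 8) t (phi c e d w)
        (val b pair (sig c e d w)) L hL (fun u => ix_le ..)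
        (fun x y hy hxy => ix_inj hy hxy)
        (fun u hu => by unfold mval; rw [occ_phi w u hu]; rfl) rfl
      unfold chk1 at h1
      simp only [Bool.or_eq_true] at h1
      rcases h1 with ((((((((h1 | h1) | h1) | h1) | h1) | h1) | h1) | h1) | h1) <;>
        exact hs _ h1

/-- The last `2 i` letters of `z` form a square. -/
def Sq (i : ℕ) (z : ℕ → ℕ) : Prop := ∀ k < i, z k = z (k + i)

theorem bad_of_sq (w : ℕ → ℕ) (u : ℕ) {i : ℕ} (h1 : 1 ≤ i) (h5 : i ≤ 5) (h : Sq i (cs u w)) :
    bad (sig c e d w) (phi c e d w u) = true := by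
  unfold bad sig
  simp only [Bool.or_eq_true, Bool.and_eq_true, beq_iff_eq]
  interval_cases i
  · have a0 : u = w 0 := h 0 (by norm_num)
    simp [a0]
  · have a0 : u = w 1 := h 0 (by norm_num)
    have a1 : w 0 = w 2 := h 1 (by norm_num)
    simp [a0, a1]
  · have a0 : u = w 2 := h 0 (by norm_num)
    have a1 : w 0 = w 3 := h 1 (by norm_num)
    have a2 : w 1 = w 4 := h 2 (by norm_num)
    simp [a0, a1, a2]
  · have a0 : u = w 3 := h 0 (by norm_num)
    have a1 : w 0 = w 4 := h 1 (by norm_num)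
    have a2 : w 1 = w 5 := h 2 (by norm_num)
    have a3 : w 2 = w 6 := h 3 (by norm_num)
    have : m4 w = 3 := by unfold m4; simp [a1, a2, a3]
    simp [a0, this]
  · have a0 : u = w 4 := h 0 (by norm_num)
    have a1 : w 0 = w 5 := h 1 (by norm_num)
    have a2 : w 1 = w 6 := h 2 (by norm_num)
    have a3 : w 2 = w 7 := h 3 (by norm_num)
    have a4 : w 3 = w 8 := h 4 (by norm_num)
    have : m5 w = 4 := by unfold m5; simp [a1, a2, a3, a4]
    simp [a0, this]

theorem pairbad_iff (hce : c ≠ e) (hcd : c ≠ d) (hed : e ≠ d) (w : ℕ → ℕ) (u : ℕ) :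
    pairbad (sig c e d w) (phi c e d w u) = true ↔ (w 0 = c ∧ u = e) ∨ (w 0 = e ∧ u = d) := by
  unfold pairbad sig
  simp only [Bool.or_eq_true, Bool.and_eq_true, beq_iff_eq, phi_zero, phi_one hce,
    phi_two hcd hed]

theorem fresh_iff (w : ℕ → ℕ) : fresh (sig c e d w) = true ↔
    w 0 ≠ w 2 ∧ w 0 ≠ w 3 ∧ w 0 ≠ w 4 ∧ w 0 ≠ w 5 := by
  have h5 : m5 w = 0 ↔ w 0 ≠ w 5 := by unfold m5; split_ifs <;> simp [*]
  unfold fresh sig
  simp only [Bool.and_eq_true, Bool.not_eq_true', beq_eq_false_iff_ne, beq_iff_eq, ne_eq,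
    phi_eq w _ (show 2 < 5 by norm_num), phi_eq w _ (show 3 < 5 by norm_num),
    phi_eq w _ (show 4 < 5 by norm_num), h5, and_assoc]

/-- The state only depends on the first five letters and the match lengths. -/
theorem sig_congr {w w' : ℕ → ℕ} (h : ∀ k < 5, w k = w' k) (h4 : m4 w = m4 w')
    (h5 : m5 w = m5 w') : sig c e d w = sig c e d w' := by
  unfold sig phi
  rw [h 0 (by norm_num), h 1 (by norm_num), h 2 (by norm_num), h 3 (by norm_num),
    h 4 (by norm_num), h4, h5]

/-- If the word `z` ends with a square of period at least six and has no shorter squares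
before its last letter, removing one period does not change the state. -/
theorem sig_sq {z : ℕ → ℕ} {i : ℕ} (hi : 6 ≤ i) (h : Sq i z)
    (hn : ∀ j t, 1 ≤ j → 1 ≤ t → j + 2 * t ≤ 2 * i → ¬ Sq t (fun k => z (k + j))) :
    sig c e d z = sig c e d (fun k => z (k + i)) := by
  have a0 := h 0 (by omega)
  have a1 := h 1 (by omega)
  have a2 := h 2 (by omega)
  have a3 := h 3 (by omega)
  have a4 := h 4 (by omega)
  have a5 := h 5 (by omega)
  refine sig_congr (fun k hk => h k (by omega)) ?_ ?_
  · unfold m4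
    beta_reduce
    rw [← a0, ← a1, ← a2, ← a4, ← a5]
    by_cases h6 : i = 6
    · subst h6
      have n1 := hn 4 2 (by norm_num) (by norm_num) (by norm_num)
      by_cases b0 : z 0 = z 4
      · have b1 : z 1 ≠ z 5 := by
          intro b1
          apply n1
          intro k hk
          interval_cases k
          · show z 4 = z 6
            rw [← b0]; exact a0
          · show z 5 = z 7
            rw [← b1]; exact a1
        simp [b1]
      · simp [b0]
    · rw [← h 6 (by omega)]
  · unfold m5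
    beta_reduce
    rw [← a0, ← a1, ← a2, ← a3, ← a5]
    by_cases h6 : i = 6
    · subst h6
      have n1 := hn 5 1 (by norm_num) (by norm_num) (by norm_num)
      have b0 : z 0 ≠ z 5 := by
        intro b0
        apply n1
        intro k hk
        interval_cases k
        show z 5 = z 6
        rw [← b0]; exact a0
      simp [b0]
    · rw [← h 6 (by omega)]
      by_cases h7 : i = 7
      · subst h7
        have n1 := hn 5 2 (by norm_num) (by norm_num) (by norm_num)
        by_cases b0 : z 0 = z 5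
        · have b1 : z 1 ≠ z 6 := by
            intro b1
            apply n1
            intro k hk
            interval_cases k
            · show z 5 = z 7
              rw [← b0]; exact a0
            · show z 6 = z 8
              rw [← b1]; exact a1
          simp [b1]
        · simp [b0]
      · rw [← h 7 (by omega)]
        by_cases h8 : i = 8
        · subst h8
          have n1 := hn 5 3 (by norm_num) (by norm_num) (by norm_num)
          by_cases b0 : z 0 = z 5
          · by_cases b1 : z 1 = z 6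
            · have b2 : z 2 ≠ z 7 := by
                intro b2
                apply n1
                intro k hk
                interval_cases k
                · show z 5 = z 8
                  rw [← b0]; exact a0
                · show z 6 = z 9
                  rw [← b1]; exact a1
                · show z 7 = z 10
                  rw [← b2]; exact a2
              simp [b2]
            · simp [b1]
          · simp [b0]
        · rw [← h 8 (by omega)]

end

end Pool.Agent.H21Z.NR
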