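import Mathlib

set_option autoImplicit false

/-! A finite state machine recording the equality pattern of the last letters of a word. -/

namespace Pool.Agent.H21Z.NR

/-- Codes of the last five letters and the match lengths for the periods four and five. -/
structure St where
  k1 : ℕ
  k2 : ℕ
  k3 : ℕ
  k4 : ℕ
  k5 : ℕ
  l4 : ℕ
  l5 : ℕ

/-- Index of the first occurrence of `x` among eight given letters, `8` if there is none. -/
def ix (x a0 a1 a2 a3 a4 a5 a6 a7 : ℕ) : ℕ :=
  if x = a0 then 0 else if x = a1 then 1 else if x = a2 then 2 else if x = a3 then 3 else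
  if x = a4 then 4 else if x = a5 then 5 else if x = a6 then 6 else if x = a7 then 7 else 8

def delta (s : St) (k : ℕ) : St :=
  ⟨ix k 0 1 2 k s.k1 s.k2 s.k3 s.k4, ix s.k1 0 1 2 k s.k1 s.k2 s.k3 s.k4,
    ix s.k2 0 1 2 k s.k1 s.k2 s.k3 s.k4, ix s.k3 0 1 2 k s.k1 s.k2 s.k3 s.k4,
    ix s.k4 0 1 2 k s.k1 s.k2 s.k3 s.k4,
    if k = s.k4 then min (s.l4 + 1) 3 else 0, if k = s.k5 then min (s.l5 + 1) 4 else 0⟩

def bad (s : St) (k : ℕ) : Bool :=
  k == s.k1 || (k == s.k2 && s.k1 == s.k3) || (k == s.k3 && s.k1 == s.k4 && s.k2 == s.k5) ||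
    (k == s.k4 && s.l4 == 3) || (k == s.k5 && s.l5 == 4)

def pairbad (s : St) (k : ℕ) : Bool := (s.k1 == 0 && k == 1) || (s.k1 == 1 && k == 2)

def fresh (s : St) : Bool :=
  !(s.k1 == s.k3) && !(s.k1 == s.k4) && !(s.k1 == s.k5) && s.l5 == 0

def occ (s : St) (k : ℕ) : Bool :=
  k == 0 || k == 1 || k == 2 || k == s.k1 || k == s.k2 || k == s.k3 || k == s.k4 || k == s.k5

def key (s : St) : ℕ :=
  s.k1 + 8 * s.k2 + 64 * s.k3 + 512 * s.k4 + 4096 * s.k5 + 32768 * (s.l4 + 4 * s.l5)

def dec (n : ℕ) : St :=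
  ⟨n % 8, n / 8 % 8, n / 64 % 8, n / 512 % 8, n / 4096 % 8, n / 32768 % 4, n / 131072⟩

/-- Search trees of pairs of numbers. -/
inductive Tr where
  | nil : Tr
  | node : Tr → ℕ → ℕ → Tr → Tr

noncomputable def Tr.get (t : Tr) (n : ℕ) : ℕ :=
  Tr.rec (motive := fun _ => ℕ) 0
    (fun _ k v _ a b => bif Nat.blt n k then a else bif Nat.blt k n then b else v) t

noncomputable def Tr.all (t : Tr) (P : ℕ → ℕ → Bool) : Bool :=
  Tr.rec (motive := fun _ => Bool) true (fun _ k v _ a b => P k v && (a && b)) t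

theorem Tr.all_get (P : ℕ → ℕ → Bool) (n : ℕ) :
    ∀ t : Tr, t.all P = true → t.get n = 0 ∨ P n (t.get n) = true := by
  intro t
  induction t with
  | nil => intro _; left; rfl
  | node l k v r ihl ihr =>
    intro h
    have h' : (P k v && (l.all P && r.all P)) = true := h
    simp only [Bool.and_eq_true] at h'
    have e : (Tr.node l k v r).get n =
        bif Nat.blt n k then l.get n else bif Nat.blt k n then r.get n else v := rfl
    rw [e]
    by_cases h1 : n < k
    · have : Nat.blt n k = true := Nat.blt_eq.mpr h1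
      rw [this]
      exact ihl h'.2.1
    · have h1' : Nat.blt n k = false := by
        rw [← Bool.not_eq_true, Nat.blt_eq]; exact h1
      rw [h1']
      by_cases h2 : k < n
      · have : Nat.blt k n = true := Nat.blt_eq.mpr h2
        rw [this]
        exact ihr h'.2.2
      · have h2' : Nat.blt k n = false := by
          rw [← Bool.not_eq_true, Nat.blt_eq]; exact h2
        rw [h2']
        have : n = k := by omega
        subst this
        right
        exact h'.1

/-- Field number `j` of a packed value. -/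
def fld (j v : ℕ) : ℕ := (v >>> (16 * j)) % 65536

theorem fld_zero (j : ℕ) : fld j 0 = 0 := by simp [fld]

end Pool.Agent.H21Z.NR
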