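import Pool.Agent.H21Z.NR.Half

set_option autoImplicit false

namespace Pool.Agent.H21Z.NR

open Finset

theorem numeric (U : ℕ → ℝ) (hU : ∀ k, 0 ≤ U k) (h0 : 0 < U 0) (M n0 n : ℕ) (hM : 2 ≤ M)
    (hn0 : 20 ≤ n0) (hn : n0 + 31 ≤ n) (C : ℝ) (hC0 : 0 ≤ C) (hC : C * (4 / 7) ^ (M - 1) ≤ 1 / 1000)
    (ha : ∀ p, p + 1 ≤ 5 → U p ≤ U (p + 1))
    (hb : ∀ p, 6 ≤ p + 1 → p + 1 ≤ n0 → 2 * U p - ∑ i ∈ Icc 6 ((p + 2) / 2), U (p + 1 - i) -
      (if bpos n0 (p + 1) then U (p - bq (p + 1)) else 0) -
      (if M + 10 ≤ p + 1 then C * U (p + 1 - M) else 0) ≤ U (p + 1))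
    (hc : ∀ p, n0 ≤ p → p + 1 ≤ n → 209 / 100 * U p -
      2051 / 900 * ∑ i ∈ Icc 6 ((p + 2) / 2), U (p + 1 - i) -
      (if M + 10 ≤ p + 1 then C * U (p + 1 - M) else 0) ≤ U (p + 1))
    (he : ∀ j ≤ 5, (if j = 5 then 47 else 1) * U (n + 5 - j) -
      lamT j * ∑ i ∈ Icc 6 ((n + 5 - j + 2) / 2), U (n + 5 - j + 1 - i) -
      65536 * ∑ i ∈ Icc 6 ((n + 5 - j + 2) / 2),
        (if n + 5 - j + 1 - i ≤ n0 + 1 then U (n + 5 - j + 1 - i) else 0) ≤ U (n + 5 - j + 1)) :
    2051 / 268 * ∑ t ∈ Icc 6 ((n + 6 + 2) / 2), U (n + 6 - t) < U (n + 6) := by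
  have a0 := ha 0 (by norm_num)
  have a1 := ha 1 (by norm_num)
  have a2 := ha 2 (by norm_num)
  have a3 := ha 3 (by norm_num)
  have a4 := ha 4 (by norm_num)
  have b5 := hb 5 (by norm_num) (by omega)
  have b6 := hb 6 (by norm_num) (by omega)
  have b7 := hb 7 (by norm_num) (by omega)
  have b8 := hb 8 (by norm_num) (by omega)
  have b9 := hb 9 (by norm_num) (by omega)
  have b10 := hb 10 (by norm_num) (by omega)
  rw [if_neg (by unfold bpos; omega), if_neg (by omega)] at b5 b9
  rw [if_pos (by unfold bpos; omega), if_neg (by omega)] at b6 b7 b8 b10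
  norm_num [bq] at a0 a1 a2 a3 a4 b5 b6 b7 b8 b9 b10
  have u5 := hU 5
  have u6 := hU 6
  set A : ℕ → ℝ := fun k => if k ≤ 10 then (4 / 7) ^ (10 - k) * U 10 else U k with hA
  have A10 : ∀ k, 10 ≤ k → A k = U k := by
    intro k hk
    simp only [hA]
    split_ifs with h
    · obtain rfl : k = 10 := by omega
      simp
    · rfl
  have A0 : ∀ k, 0 ≤ A k := by
    intro k
    simp only [hA]
    have := hU 10
    have := hU k
    split_ifs <;> positivity
  have sumA : ∀ k, (∀ m < k, 7 / 4 * A m ≤ A (m + 1)) → ∀ m, 5 ≤ m → m ≤ k →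
      ∑ i ∈ Icc 5 m, U i ≤ 7 / 3 * A m := by
    intro k hk m h5
    induction m, h5 using Nat.le_induction with
    | base => intro _; simp only [hA]; norm_num; linarith
    | succ m hm ih =>
      intro hmk
      by_cases h10 : m + 1 ≤ 10
      · have : m ≤ 9 := by omega
        interval_cases m <;> simp only [hA] <;> norm_num [sum_Icc_succ_top] <;> linarith
      · rw [sum_Icc_succ_top (by omega)]
        have h1 := ih (by omega)
        have h2 := hk m (by omega)
        rw [A10 (m + 1) (by omega)] at h2 ⊢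
        linarith
  have cost : ∀ k, (∀ m < k, 7 / 4 * A m ≤ A (m + 1)) → ∀ q K r, K + 5 ≤ q → 11 ≤ q →
      q + r = k + 6 → ∑ i ∈ Icc 6 K, U (q - i) ≤ 7 / 3 * (4 / 7) ^ r * A k := by
    intro k hk q K r h1 h2 h3
    have e1 := sum_reidx U hU q K 5 h1
    have e2 := sumA k hk (q - 6) (by omega) (by omega)
    have e3 := geo_pow A k hk (q - 6) r (by omega)
    rw [show q - 6 + r = k by omega] at e3
    calc _ ≤ 7 / 3 * A (q - 6) := e1.trans e2
      _ ≤ 7 / 3 * ((4 / 7) ^ r * A k) := by linarith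
      _ = _ := by ring
  have rep : ∀ p, (∀ m < p, 7 / 4 * A m ≤ A (m + 1)) →
      (if M + 10 ≤ p + 1 then C * U (p + 1 - M) else 0) ≤ 1 / 1000 * A p := by
    intro p hp
    have := A0 p
    split_ifs with h
    · have e3 := geo_pow A p hp (p + 1 - M) (M - 1) (by omega)
      rw [show p + 1 - M + (M - 1) = p by omega, A10 _ (by omega)] at e3
      calc _ ≤ C * ((4 / 7) ^ (M - 1) * A p) := mul_le_mul_of_nonneg_left e3 hC0
        _ = C * (4 / 7) ^ (M - 1) * A p := by ring
        _ ≤ _ := mul_le_mul_of_nonneg_right hC this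
    · linarith
  have grow : ∀ k ≤ n, ∀ m < k, 7 / 4 * A m ≤ A (m + 1) := by
    intro k
    induction k with
    | zero => intro _ m hm; omega
    | succ k ih =>
      intro hk m hm
      by_cases hmk : m < k
      · exact ih (by omega) m hmk
      obtain rfl : m = k := by omega
      have ih' := ih (by omega)
      by_cases h9 : m ≤ 9
      · simp only [hA]
        rw [if_pos (by omega), if_pos (by omega), show 10 - m = 10 - (m + 1) + 1 by omega, pow_succ]
        linarith
      by_cases h10 : m = 10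
      · subst h10
        rw [A10 _ (by omega), A10 _ (by omega)]
        norm_num
        linarith
      have c1 := cost m ih' (m + 1) ((m + 2) / 2) 5 (by omega) (by omega) (by omega)
      have c2 := rep m ih'
      have e5 : (7 / 3 : ℝ) * (4 / 7) ^ 5 = 1024 / 7203 := by norm_num
      rw [e5] at c1
      have c0 := A0 m
      rw [A10 (m + 1) (by omega)]
      by_cases hl : m + 1 ≤ n0
      · have c3 := hb m (by omega) hl
        have c4 : (if bpos n0 (m + 1) then U (m - bq (m + 1)) else 0) ≤ 256 / 2401 * A m := by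
          split_ifs with h
          · have h1 : 8 ≤ m - bq (m + 1) ∧ m - bq (m + 1) + 4 ≤ m := by
              unfold bpos at h; unfold bq; omega
            have h2 : U (m - bq (m + 1)) ≤ A (m - bq (m + 1)) := by
              by_cases h3 : 10 ≤ m - bq (m + 1)
              · rw [A10 _ h3]
              · have h4 : m - bq (m + 1) = 8 ∨ m - bq (m + 1) = 9 := by omega
                rcases h4 with h4 | h4 <;> rw [h4] <;> simp only [hA] <;> norm_num <;> linarith
            have e3 := geo_pow A m ih' (m - bq (m + 1)) (bq (m + 1)) (by omega)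
            rw [show m - bq (m + 1) + bq (m + 1) = m by omega] at e3
            have e4 : (4 / 7 : ℝ) ^ bq (m + 1) ≤ (4 / 7) ^ 4 :=
              pow_le_pow_of_le_one (by norm_num) (by norm_num) (by omega)
            have e6 := mul_le_mul_of_nonneg_right e4 c0
            norm_num at e6
            linarith
          · linarith
        rw [← A10 m (by omega)] at c3
        linarith
      · have c3 := hc m (by omega) hk
        rw [← A10 m (by omega)] at c3
        linarith
  have gr := grow n le_rfl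
  have hTn : 0 < U n := by
    have := geo_pow A n gr 10 (n - 10) (by omega)
    rw [show 10 + (n - 10) = n by omega, A10 _ le_rfl, A10 n (by omega)] at this
    by_contra hc
    have h1 : U n ≤ 0 := not_lt.mp hc
    have h2 : (4 / 7 : ℝ) ^ (n - 10) * U n ≤ 0 :=
      mul_nonpos_of_nonneg_of_nonpos (by positivity) h1
    linarith
  have far : ∀ q K, K + 5 ≤ q → 65536 * ∑ i ∈ Icc 6 K,
      (if q - i ≤ n0 + 1 then U (q - i) else 0) ≤ 1 / 100 * U n := by
    intro q K hK
    have e1 := sum_reidx (fun m => if m ≤ n0 + 1 then U m else 0)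
      (fun m => by split_ifs; exacts [hU m, le_rfl]) q K 5 hK
    have e2 : ∑ m ∈ Icc 5 (q - 6), (if m ≤ n0 + 1 then U m else 0) ≤
        ∑ m ∈ Icc 5 (n0 + 1), U m := by
      rw [← sum_filter]
      refine sum_le_sum_of_subset_of_nonneg (fun m hm => ?_) (fun m _ _ => hU m)
      have h1 := mem_filter.mp hm
      exact mem_Icc.mpr ⟨(mem_Icc.mp h1.1).1, h1.2⟩
    have e3 := sumA n gr (n0 + 1) (by omega) (by omega)
    have e4 := geo_pow A n gr (n0 + 1) (n - (n0 + 1)) (by omega)
    rw [show n0 + 1 + (n - (n0 + 1)) = n by omega, A10 n (by omega)] at e4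
    have e5 : (4 / 7 : ℝ) ^ (n - (n0 + 1)) ≤ (4 / 7) ^ 30 :=
      pow_le_pow_of_le_one (by norm_num) (by norm_num) (by omega)
    have e6 := mul_le_mul_of_nonneg_right e5 hTn.le
    have e7 : (4 / 7 : ℝ) ^ 30 ≤ 1 / 16000000 := by norm_num
    have e8 := mul_le_mul_of_nonneg_right e7 hTn.le
    linarith
  have aj : ∀ j ≤ 5, (if j = 5 then 47 else 1) * U (n + 5 - j) -
      lamT j * (7 / 3 * (4 / 7) ^ j * U n) - 1 / 100 * U n ≤ U (n + 5 - j + 1) := by
    intro j hj
    have h1 := he j hj
    have h2 := cost n gr (n + 5 - j + 1) ((n + 5 - j + 2) / 2) j (by omega) (by omega) (by omega)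
    rw [A10 n (by omega)] at h2
    have h3 := mul_le_mul_of_nonneg_left h2 (lamT_nonneg j)
    have h4 := far (n + 5 - j + 1) ((n + 5 - j + 2) / 2) (by omega)
    linarith
  have t5 := aj 5 (by norm_num)
  have t4 := aj 4 (by norm_num)
  have t3 := aj 3 (by norm_num)
  have t2 := aj 2 (by norm_num)
  have t1 := aj 1 (by norm_num)
  have t0 := aj 0 (by norm_num)
  have h1 := cost n gr (n + 6) ((n + 6 + 2) / 2) 0 (by omega) (by omega) (by omega)
  rw [A10 n (by omega)] at h1
  simp only [show n + 5 - 5 = n by omega, show n + 5 - 4 = n + 1 by omega,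
    show n + 5 - 3 = n + 2 by omega, show n + 5 - 2 = n + 3 by omega,
    show n + 5 - 1 = n + 4 by omega, show n + 5 - 0 = n + 5 by omega, lamT] at t0 t1 t2 t3 t4 t5
  norm_num at t0 t1 t2 t3 t4 t5 h1 ⊢
  linarith

end Pool.Agent.H21Z.NR
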