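import Pool.Agent.H21Z.NR.Chk

set_option autoImplicit false

namespace Pool.Agent.H21Z.NR

/-- The top five levels of the tree. -/
noncomputable def top : Tr :=
  (.node (.node (.node (.node (.node .nil 3393 11275678289487163532539272147257735720337409 .nil) 7306
  11664288530648261807774770627561656391696385 (.node .nil 11331
  10523321255923803586373074311909201960697857 .nil)) 21313
  8782753910696127763932587058936824362827777 (.node (.node .nil 29520
  10106794381540361478869849401201022922850305 .nil) 31947
  9651153399936816533395685250169165847396353 (.node .nil 45139
  13011481562162406890503327035977882854162433 .nil))) 70993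
  9861117096273794367696300263027842957377537 (.node (.node (.node .nil 81219
  9883231109431776230223947603127363411443713 .nil) 111115
  10374264800832718580107651072280858663190529 (.node .nil 132771
  12204315042541727243308674093500173384876033 .nil)) 136835
  10374946180786958274038676359444081913233409 (.node (.node .nil 140819
  8463907655828838708086219406520163505340417 .nil) 150562
  13063184886195665845714596101603874809708545 (.node .nil 160417
  9314614102734294307249394600035221527789569 .nil)))) 162914
  12507853913095895685524335859513187380690945 (.node (.node (.node (.node .nil 265314
  11852464549720071471650213798497697780793345 .nil) 269450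
  11664288530648261807774770627561656391696385 (.node .nil 273603
  9110790827073830562289712058284773186142209 .nil)) 290897
  10794511628783960469063122492904537619759105 (.node (.node .nil 292195
  12674928546823719793158341114669246999625729 .nil) 394337
  2188377885959066870619603618531510498099201 (.node .nil 398690
  13142137404859571979647426319593133190021121 .nil))) 403552
  7022467286569778614032961725327193643417601 (.node (.node (.node .nil 417098
  13970395382203113510332135412414494208622593 .nil) 423233
  8769482898341049365550664459189527911792641 (.node .nil 525130
  11736417857265174829946373987771104992755713 .nil)) 529475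
  7811928639789767034694926633955264502956033 (.node (.node .nil 533345
  7273928670904603511139043673674473076031489 .nil) 546113
  5309126378297955210550098118403395757539329 (.node .nil 554050
  5031792609527648048547089120693897932046337 .nil)))))

theorem all_node (l r : Tr) (k v : ℕ) (P : ℕ → ℕ → Bool) :
    (Tr.node l k v r).all P = (P k v && (l.all P && r.all P)) := rfl

theorem all_nil (P : ℕ → ℕ → Bool) : Tr.nil.all P = true := rfl

theorem split (P : ℕ → ℕ → Bool) (ht : top.all P = true)
    (h0 : (tr0.all P && tr1.all P && tr2.all P && tr3.all P) = true)
    (h1 : (tr4.all P && tr5.all P && tr6.all P && tr7.all P) = true)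
    (h2 : (tr8.all P && tr9.all P && tr10.all P && tr11.all P) = true)
    (h3 : (tr12.all P && tr13.all P && tr14.all P && tr15.all P) = true)
    (h4 : (tr16.all P && tr17.all P && tr18.all P && tr19.all P) = true)
    (h5 : (tr20.all P && tr21.all P && tr22.all P && tr23.all P) = true)
    (h6 : (tr24.all P && tr25.all P && tr26.all P && tr27.all P) = true)
    (h7 : (tr28.all P && tr29.all P && tr30.all P && tr31.all P) = true)
    : tree.all P = true := by
  unfold top at ht
  unfold tree
  simp only [all_node, all_nil, Bool.and_eq_true, and_true] at *
  simp only [ht, h0, h1, h2, h3, h4, h5, h6, h7, and_self]

/-- The predicate checked at each node. -/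
noncomputable def cp (a b num den kf kn : ℕ) (pair : Bool) (n v : ℕ) : Bool :=
  chkS (fld a v) b num den kf kn pair (dec n)

end Pool.Agent.H21Z.NR
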