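import Pool.Agent.H21Z.NR.Comb
import Pool.Agent.H21Z.NR.Cyc

set_option autoImplicit false

namespace Pool.Agent.H21Z.NR

open Finset

section
variable {V : Type}

/-- Vertices of the subdivision: one chain for every ordered pair. -/
abbrev SV (V : Type) (K : ℕ) : Type := V ⊕ ((V × V) × Fin (2 * K))

def rv (x : (V × V) × Bool) : (V × V) × Bool := (x.1, !x.2)

def org (x : (V × V) × Bool) : V := bif x.2 then x.1.2 else x.1.1

def pt0 (K : ℕ) (q : V × V) (j : ℕ) : SV V K :=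
  if j = 0 then Sum.inl q.1 else if h : j < 2 * K then Sum.inr (q, ⟨j, h⟩) else Sum.inl q.2

def pt (K : ℕ) (x : (V × V) × Bool) (j : ℕ) : SV V K :=
  bif x.2 then pt0 K x.1 (2 * K - j) else pt0 K x.1 j

variable {K : ℕ}

theorem rv_rv (x : (V × V) × Bool) : rv (rv x) = x := by simp [rv]

theorem pt_rv (x : (V × V) × Bool) {j k : ℕ} (h : j + k = 2 * K) : pt K (rv x) j = pt K x k := by
  obtain ⟨q, _ | _⟩ := x
  · show pt0 K q (2 * K - j) = pt0 K q k
    congr 1; omega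
  · show pt0 K q j = pt0 K q (2 * K - k)
    congr 1; omega

theorem pt_zero (hK : 0 < K) (x : (V × V) × Bool) : pt K x 0 = Sum.inl (org x) := by
  obtain ⟨q, _ | _⟩ := x
  · show pt0 K q 0 = _
    simp [pt0, org]
  · show pt0 K q (2 * K - 0) = _
    unfold pt0
    rw [if_neg (by omega), dif_neg (by omega)]
    rfl

theorem pt0_inj {q q' : V × V} {j j' : ℕ} (h0 : 0 < j) (h1 : j < 2 * K)
    (h : pt0 K q j = pt0 K q' j') : q = q' ∧ j = j' := by
  unfold pt0 at h
  rw [if_neg (by omega), dif_pos h1] at h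
  split_ifs at h
  simpa using h

theorem pt_inj {x x' : (V × V) × Bool} {j j' : ℕ} (h0 : 0 < j) (h1 : j < 2 * K) (h2 : j' ≤ 2 * K)
    (h : pt K x j = pt K x' j') : (x' = x ∧ j' = j) ∨ (x' = rv x ∧ j' + j = 2 * K) := by
  obtain ⟨q, _ | _⟩ := x <;> obtain ⟨q', _ | _⟩ := x'
  · have := pt0_inj h0 h1 h
    left; exact ⟨by rw [show q = q' from this.1], this.2.symm⟩
  · have := pt0_inj h0 h1 h
    right; exact ⟨by rw [show q = q' from this.1]; rfl, by omega⟩
  · have := pt0_inj (j := 2 * K - j) (by omega) (by omega) h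
    right; exact ⟨by rw [show q = q' from this.1]; rfl, by omega⟩
  · have := pt0_inj (j := 2 * K - j) (j' := 2 * K - j') (by omega) (by omega) h
    left; exact ⟨by rw [show q = q' from this.1], by omega⟩

theorem pt_inl {x : (V × V) × Bool} {j : ℕ} {v : V} (h1 : j < 2 * K)
    (h : pt K x j = Sum.inl v) : j = 0 := by
  by_contra h0
  obtain ⟨q, _ | _⟩ := x
  · change pt0 K q j = _ at h
    unfold pt0 at h
    rw [if_neg h0, dif_pos h1] at h
    simp at h
  · change pt0 K q (2 * K - j) = _ at h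
    unfold pt0 at h
    rw [if_neg (by omega), dif_pos (by omega)] at h
    simp at h

/-- The subdivision of the complete digraph with loops. -/
def SG (V : Type) (K : ℕ) : SimpleGraph (SV V K) where
  Adj x y := x ≠ y ∧ ∃ δ j, j < 2 * K ∧ x = pt K δ j ∧ y = pt K δ (j + 1)
  symm := ⟨by
    rintro x y ⟨h, δ, j, h1, h2, h3⟩
    exact ⟨h.symm, rv δ, 2 * K - (j + 1), by omega, h3.trans (pt_rv δ (by omega)).symm,
      h2.trans (pt_rv δ (by omega)).symm⟩⟩
  loopless := ⟨fun x h => h.1 rfl⟩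

theorem run {x : ℕ → SV V K} {m : ℕ} (hadj : ∀ i < m, (SG V K).Adj (x i) (x (i + 1)))
    (hinj : ∀ i ≤ m, ∀ i' ≤ m, x i = x i' → i = i') {i j : ℕ} {δ : (V × V) × Bool}
    (h1 : x i = pt K δ j) (h2 : x (i + 1) = pt K δ (j + 1)) :
    ∀ k, i + k ≤ m → j + k ≤ 2 * K → x (i + k) = pt K δ (j + k) := by
  have key : ∀ k, i + k + 1 ≤ m → j + k + 1 ≤ 2 * K →
      x (i + k) = pt K δ (j + k) ∧ x (i + k + 1) = pt K δ (j + k + 1) := by
    intro k
    induction k with
    | zero => intro _ _; exact ⟨h1, h2⟩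
    | succ k ih =>
      intro a1 a2
      obtain ⟨b1, b2⟩ := ih (by omega) (by omega)
      refine ⟨b2, ?_⟩
      obtain ⟨-, δ', j', c1, c2, c3⟩ := hadj (i + k + 1) (by omega)
      rw [b2] at c2
      rcases pt_inj (by omega) (by omega) c1.le c2 with ⟨rfl, rfl⟩ | ⟨rfl, h⟩
      · exact c3
      · rw [pt_rv δ (k := j + k) (by omega), ← b1] at c3
        have := hinj _ (by omega) _ (by omega) c3
        omega
  intro k a1 a2
  cases k with
  | zero => exact h1
  | succ k => exact (key k a1 a2).2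

theorem stretch (hK : 0 < K) {x : ℕ → SV V K} {m : ℕ}
    (hadj : ∀ i < m, (SG V K).Adj (x i) (x (i + 1)))
    (hinj : ∀ i ≤ m, ∀ i' ≤ m, x i = x i' → i = i') {i : ℕ} (hi : i < m) :
    ∃ δ δ' j r, j + r = 2 * K ∧ 0 < r ∧ org δ' = org (rv δ) ∧
      (∀ k ≤ r, i + k ≤ m → x (i + k) = pt K δ (j + k)) ∧
      ∀ k ≤ 2 * K, i + r + k ≤ m → x (i + r + k) = pt K δ' k := by
  obtain ⟨-, δ, j, c1, c2, c3⟩ := hadj i hi
  have r1 := run hadj hinj c2 c3
  by_cases h : i + (2 * K - j) < m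
  · obtain ⟨-, δ', j', d1, d2, d3⟩ := hadj _ h
    have e1 := r1 (2 * K - j) h.le (by omega)
    rw [← pt_rv δ (j := 0) (by omega), pt_zero hK, d2] at e1
    obtain rfl := pt_inl d1 e1
    rw [pt_zero hK] at e1
    have r2 := run hadj hinj d2 d3
    refine ⟨δ, δ', j, 2 * K - j, by omega, by omega, Sum.inl.inj e1,
      fun k h1 h2 => r1 k h2 (by omega), fun k h1 h2 => ?_⟩
    have := r2 k h2 (by omega)
    rwa [zero_add] at this
  · refine ⟨δ, rv δ, j, 2 * K - j, by omega, by omega, rfl,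
      fun k h1 h2 => r1 k h2 (by omega), fun k h1 h2 => ?_⟩
    obtain rfl : k = 0 := by omega
    rw [pt_rv δ (k := j + (2 * K - j)) (by omega)]
    exact r1 _ h2 (by omega)

theorem window {n M : ℕ} (hM : 2 ≤ M) (hn : 3 * M + 80 ≤ n) {x : ℕ → SV V (n + 9)} {m : ℕ}
    (hadj : ∀ i < m, (SG V (n + 9)).Adj (x i) (x (i + 1)))
    (hinj : ∀ i ≤ m, ∀ i' ≤ m, x i = x i' → i = i') {i : ℕ} (hi : i + 3 * M + 45 ≤ m) :
    ∃ α, ∀ β, β + M ≤ 3 * M + 46 → (β + M ≤ α ∨ α + 23 ≤ β) → ∃ δ a, 12 ≤ a ∧ a + M ≤ n + 2 ∧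
      ((∀ k < M, x (i + β + k) = pt (n + 9) δ (a + k)) ∨
        ∀ k < M, x (i + β + k) = pt (n + 9) δ (a + M - 1 - k)) := by
  obtain ⟨δ, δ', j, r, h1, h2, -, h3, h4⟩ := stretch (by omega) hadj hinj (i := i) (by omega)
  have fw : ∀ β, β + M ≤ 3 * M + 46 → 12 ≤ j + β → j + β + M ≤ n + 2 → ∃ δ a, 12 ≤ a ∧
      a + M ≤ n + 2 ∧ ((∀ k < M, x (i + β + k) = pt (n + 9) δ (a + k)) ∨
        ∀ k < M, x (i + β + k) = pt (n + 9) δ (a + M - 1 - k)) := by
    intro β b1 b2 b3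
    refine ⟨δ, j + β, b2, b3, Or.inl fun k hk => ?_⟩
    rw [add_assoc, add_assoc]
    exact h3 _ (by omega) (by omega)
  have bw : ∀ β, β + M ≤ 3 * M + 46 → n + 17 ≤ j + β → β + M + 11 ≤ r → ∃ δ a, 12 ≤ a ∧
      a + M ≤ n + 2 ∧ ((∀ k < M, x (i + β + k) = pt (n + 9) δ (a + k)) ∨
        ∀ k < M, x (i + β + k) = pt (n + 9) δ (a + M - 1 - k)) := by
    intro β b1 b2 b3
    refine ⟨rv δ, r + 1 - β - M, by omega, by omega, Or.inr fun k hk => ?_⟩
    rw [add_assoc, pt_rv δ (k := j + (β + k)) (by omega)]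
    exact h3 _ (by omega) (by omega)
  by_cases c1 : j ≤ 11
  · exact ⟨0, fun β b1 b2 => fw β b1 (by omega) (by omega)⟩
  by_cases c2 : j ≤ n + 16
  · refine ⟨n + 2 - j, fun β b1 b2 => ?_⟩
    rcases b2 with b2 | b2
    · exact fw β b1 (by omega) (by omega)
    · exact bw β b1 (by omega) (by omega)
  · refine ⟨r - 11, fun β b1 b2 => ?_⟩
    rcases b2 with b2 | b2
    · exact bw β b1 (by omega) (by omega)
    · refine ⟨δ', β - r, by omega, by omega, Or.inl fun k hk => ?_⟩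
      rw [show i + β + k = i + r + (β - r + k) by omega]
      exact h4 _ (by omega) (by omega)

theorem walk_of {W : Type} (H : SimpleGraph W) (f : ℕ → W) : ∀ m,
    (∀ i < m, H.Adj (f i) (f (i + 1))) → ∀ a b, f 0 = a → f m = b →
      ∃ p : H.Walk a b, p.support = (List.range (m + 1)).map f := by
  intro m
  induction m with
  | zero =>
    rintro _ a b rfl rfl
    exact ⟨SimpleGraph.Walk.nil, by simp⟩
  | succ m ih =>
    rintro h a b rfl rfl
    obtain ⟨p, hp⟩ := ih (fun i hi => h i (by omega)) _ _ rfl rfl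
    refine ⟨p.concat (h m (by omega)), ?_⟩
    rw [SimpleGraph.Walk.support_concat, hp, List.range_succ (n := m + 1)]
    simp

end

end Pool.Agent.H21Z.NR
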