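import Pool.Agent.H21Z.NR.Sub

set_option autoImplicit false

namespace Pool.Agent.H21Z.NR

open Finset

variable {V : Type}

theorem colouring {n : ℕ} (L : SV V (n + 9) → Finset ℕ) (hL : ∀ w, 4 ≤ (L w).card)
    (a : V → ℕ) (ha : ∀ v, a v ∈ L (Sum.inl v)) (e : V × V → ℕ)
    (he : ∀ q, e q ∈ L (pt (n + 9) (q, false) (n + 9))) (Y : (V × V) × Bool → ℕ → ℕ)
    (h0 : ∀ δ, Y δ 0 = a (org δ)) (hY : ∀ δ j, 1 ≤ j → j ≤ n + 8 → Y δ j ∈ L (pt (n + 9) δ j)) :
    ∃ col : SV V (n + 9) → ℕ, (∀ w, col w ∈ L w) ∧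
      (∀ δ, ∀ j ≤ n + 8, col (pt (n + 9) δ j) = Y δ j) ∧
      ∀ δ, col (pt (n + 9) δ (n + 9)) = e δ.1 := by
  have hne : ∀ w, ∃ x, x ∈ L w := fun w => card_pos.mp (by have := hL w; omega)
  choose z hz using hne
  obtain ⟨col, c1, c2⟩ : ∃ col : SV V (n + 9) → ℕ, (∀ v, col (Sum.inl v) = a v) ∧
      ∀ q j, col (Sum.inr (q, j)) = if j.1 = 0 then z (Sum.inr (q, j)) else
        if j.1 < n + 9 then Y (q, false) j.1 else if j.1 = n + 9 then e q else
        Y (q, true) (2 * (n + 9) - j.1) :=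
    ⟨Sum.elim a fun w => if w.2.1 = 0 then z (Sum.inr w) else
        if w.2.1 < n + 9 then Y (w.1, false) w.2.1 else if w.2.1 = n + 9 then e w.1 else
        Y (w.1, true) (2 * (n + 9) - w.2.1), fun _ => rfl, fun _ _ => rfl⟩
  have p0 : ∀ (q : V × V) j (h : j < 2 * (n + 9)), 0 < j →
      pt0 (n + 9) q j = Sum.inr (q, ⟨j, h⟩) := by
    intro q j h h'
    unfold pt0
    rw [if_neg (by omega), dif_pos h]
  have pf : ∀ (q : V × V) j, pt (n + 9) (q, false) j = pt0 (n + 9) q j := fun _ _ => rfl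
  have pT : ∀ (q : V × V) j, pt (n + 9) (q, true) j = pt0 (n + 9) q (2 * (n + 9) - j) :=
    fun _ _ => rfl
  refine ⟨col, ?_, ?_, ?_⟩
  · rintro (v | ⟨q, j, hj⟩)
    · rw [c1]; exact ha v
    · rw [c2]
      simp only
      split_ifs with h1 h2 h3
      · exact hz _
      · rw [← p0 q j hj (by omega), ← pf]
        exact hY _ _ (by omega) (by omega)
      · rw [← p0 q j hj (by omega), ← pf, h3]
        exact he q
      · have := hY (q, true) (2 * (n + 9) - j) (by omega) (by omega)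
        rwa [pT, show 2 * (n + 9) - (2 * (n + 9) - j) = j by omega, p0 q j hj (by omega)] at this
  · intro δ j hj
    by_cases h : j = 0
    · rw [h, pt_zero (by omega), c1, h0]
    obtain ⟨q, _ | _⟩ := δ
    · rw [pf, p0 q j (by omega) (by omega), c2]
      simp only
      rw [if_neg h, if_pos (by omega)]
    · rw [pT, p0 q _ (by omega) (by omega), c2]
      simp only
      rw [if_neg (by omega), if_neg (by omega), if_neg (by omega)]
      congr 1; omega
  · rintro ⟨q, _ | _⟩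
    · rw [pf, p0 q _ (by omega) (by omega), c2]
      simp
    · rw [pT, p0 q _ (by omega) (by omega), c2]
      simp only
      rw [if_neg (by omega), if_neg (by omega), if_pos (by omega)]

theorem no_square {M n : ℕ} (hM : 2 ≤ M) (hn : n = 9 * M + 200)
    (a : V → ℕ) (c : (V × V) × Bool → ℕ) (e : V × V → ℕ) (hce : ∀ δ, c δ ≠ e δ.1)
    (hcd : ∀ δ, c δ ≠ c (rv δ)) (L : (V × V) × Bool → ℕ → Finset ℕ) (Y : (V × V) × Bool → ℕ → ℕ)
    (hG : ∀ δ, Good M (6 * M + 92) n (a (org δ)) (c δ) (e δ.1) (c (rv δ)) (L δ) (Y δ))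
    (hD : ∀ x x' α β, 12 ≤ α → α + M ≤ n + 2 → 12 ≤ β → β + M ≤ n + 2 →
        (x ≠ x' ∨ α + M ≤ β ∨ β + M ≤ α) → Dif M (Y x) (Y x') α β)
    (col : SV V (n + 9) → ℕ) (c1 : ∀ δ, ∀ j ≤ n + 8, col (pt (n + 9) δ j) = Y δ j)
    (c2 : ∀ δ, col (pt (n + 9) δ (n + 9)) = e δ.1) (x : ℕ → SV V (n + 9)) (t : ℕ) (ht : 0 < t)
    (hadj : ∀ i < 2 * t - 1, (SG V (n + 9)).Adj (x i) (x (i + 1)))
    (hinj : ∀ i ≤ 2 * t - 1, ∀ i' ≤ 2 * t - 1, x i = x i' → i = i')
    (hs : ∀ i < t, col (x i) = col (x (i + t))) : False := by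
  by_cases hl : 3 * M + 46 ≤ t
  · obtain ⟨α1, w1⟩ := window hM (by omega) hadj hinj (i := 0) (by omega)
    obtain ⟨α2, w2⟩ := window hM (by omega) hadj hinj (i := t) (by omega)
    obtain ⟨β, b1, b2, b3⟩ : ∃ β, β + M ≤ 3 * M + 46 ∧ (β + M ≤ α1 ∨ α1 + 23 ≤ β) ∧
        (β + M ≤ α2 ∨ α2 + 23 ≤ β) := by
      by_contra hc
      push Not at hc
      have h1 := hc 0
      have h2 := hc (α1 + 23)
      have h3 := hc (α2 + 23)
      omega
    obtain ⟨δ, p, p1, p2, hp⟩ := w1 β b1 b2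
    obtain ⟨δ', q, q1, q2, hq⟩ := w2 β b1 b3
    have hd : δ ≠ δ' ∨ p + M ≤ q ∨ q + M ≤ p := by
      by_contra hc
      push Not at hc
      obtain ⟨rfl, h1, h2⟩ := hc
      obtain ⟨k, hk, e1⟩ : ∃ k < M, x (0 + β + k) = pt (n + 9) δ (max p q) := by
        rcases hp with hp | hp
        · exact ⟨max p q - p, by omega, by rw [hp _ (by omega)]; congr 1; omega⟩
        · exact ⟨p + M - 1 - max p q, by omega, by rw [hp _ (by omega)]; congr 1; omega⟩
      obtain ⟨k', hk', e2⟩ : ∃ k < M, x (t + β + k) = pt (n + 9) δ (max p q) := by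
        rcases hq with hq | hq
        · exact ⟨max p q - q, by omega, by rw [hq _ (by omega)]; congr 1; omega⟩
        · exact ⟨q + M - 1 - max p q, by omega, by rw [hq _ (by omega)]; congr 1; omega⟩
      have := hinj _ (by omega) _ (by omega) (e1.trans e2.symm)
      omega
    have hD' := hD δ δ' p q p1 p2 q1 q2 hd
    have hs' : ∀ k < M, col (x (0 + β + k)) = col (x (t + β + k)) := by
      intro k hk
      rw [hs _ (by omega)]
      congr 2; omega
    rcases hp with hp | hp <;> rcases hq with hq | hq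
    · refine hD'.1 fun k hk => ?_
      rw [← c1 δ _ (by omega), ← c1 δ' _ (by omega), ← hp k hk, ← hq k hk, hs' k hk]
    · refine hD'.2 fun k hk => ?_
      rw [← c1 δ _ (by omega), ← c1 δ' _ (by omega), ← hp k hk, ← hq k hk, hs' k hk]
    · refine hD'.symm.2 fun k hk => ?_
      rw [← c1 δ _ (by omega), ← c1 δ' _ (by omega), ← hp k hk, ← hq k hk, hs' k hk]
    · refine hD'.1 fun k hk => ?_
      have h1 := hp (M - 1 - k) (by omega)
      have h2 := hq (M - 1 - k) (by omega)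
      rw [show p + M - 1 - (M - 1 - k) = p + k by omega] at h1
      rw [show q + M - 1 - (M - 1 - k) = q + k by omega] at h2
      rw [← c1 δ _ (by omega), ← c1 δ' _ (by omega), ← h1, ← h2, hs' _ (by omega)]
  · obtain ⟨δ, δ', j, r, h1, h2, h3, h4, h5⟩ :=
      stretch (by omega) hadj hinj (i := 0) (by omega)
    simp only [zero_add] at h4 h5
    have hs' : ∀ i k, i < t → k = i + t → col (x i) = col (x k) := by
      rintro i k h rfl; exact hs i h
    have f1 : ∀ i k, i + k = r → i ≤ 2 * t - 1 → k ≤ n + 8 → col (x i) = Y (rv δ) k := by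
      intro i k e1 e2 e3
      rw [h4 i (by omega) e2, ← pt_rv δ (j := k) (by omega), c1 _ _ e3]
    have f2 : ∀ k, r + k ≤ 2 * t - 1 → col (x (r + k)) = Y δ' k := by
      intro k e1
      rw [h5 k (by omega) e1, c1 _ _ (by omega)]
    have g1 := hG (rv δ)
    have g2 := hG δ'
    rw [h3] at g2
    by_cases a1 : r < t
    · exact sq_branch g1 g2 (fun i => col (x i)) r t a1 (by omega)
        (fun i k e => f1 i k e (by omega) (by omega)) (fun i e => f2 i (by omega)) hs
    by_cases a2 : r ≤ 2 * t - 1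
    · refine sq_branch g2 g1 (fun i => col (x (2 * t - 1 - i))) (2 * t - 1 - r) t (by omega)
        (by omega) (fun i k e => ?_) (fun i e => f1 _ i (by omega) (by omega) (by omega))
        (fun i e => (hs' _ _ (by omega) (by omega)).symm)
      rw [← f2 k (by omega)]
      congr 2; omega
    by_cases a3 : j = 0
    · refine sq_branch (hG δ) (hG δ) (fun i => col (x i)) 0 t ht (by omega) (fun i k e => ?_)
        (fun i e => ?_) hs
      · rw [h4 i (by omega) (by omega), c1 _ _ (by omega)]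
        congr 1; omega
      · rw [h4 _ (by omega) (by omega), c1 _ _ (by omega)]
        congr 1; omega
    have f3 : ∀ δ, col (pt (n + 9) δ (n + 10)) = c (rv δ) := by
      intro δ
      rw [← pt_rv δ (j := n + 8) (by omega), c1 _ _ le_rfl, (hG _).hc]
    by_cases a4 : j + t ≤ n + 9
    · refine sq_chain (hce δ) (hcd δ) (hG δ) (fun i => col (pt (n + 9) δ i)) (c1 δ) (c2 δ) (f3 δ)
        j t (by omega) ht (by omega) a4 fun i hi => ?_
      rw [add_assoc, ← h4 i (by omega) (by omega), ← h4 (i + t) (by omega) (by omega)]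
      exact hs i hi
    · refine sq_chain (hce (rv δ)) (hcd (rv δ)) (hG (rv δ)) (fun i => col (pt (n + 9) (rv δ) i))
        (c1 _) (c2 _) (f3 _) (r + 1 - 2 * t) t (by omega) ht (by omega) (by omega) fun i hi => ?_
      rw [pt_rv δ (k := j + (2 * t - 1 - i)) (by omega),
        pt_rv δ (k := j + (t - 1 - i)) (by omega), ← h4 _ (by omega) (by omega),
        ← h4 _ (by omega) (by omega)]
      exact (hs' _ _ (by omega) (by omega)).symm

theorem subdivisions :
    ∀ (V : Type) [Fintype V] (G : SimpleGraph V),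
      ∃ (W : Type) (_ : Fintype W) (H : SimpleGraph W) (f : V → W)
        (P : ∀ u v : V, G.Adj u v → H.Walk (f u) (f v)),
        Function.Injective f ∧
        (∀ (u v : V) (h : G.Adj u v), (P u v h).IsPath) ∧
        (∀ (u v : V) (h : G.Adj u v) (x : V),
            f x ∈ (P u v h).support → x = u ∨ x = v) ∧
        (∀ (u v : V) (h : G.Adj u v) (u' v' : V) (h' : G.Adj u' v') (w : W),
            w ∈ (P u v h).support → w ∈ (P u' v' h').support →
              (∃ x, f x = w) ∨ (u = u' ∧ v = v') ∨ (u = v' ∧ v = u')) ∧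
        (∀ L : W → Finset ℕ, (∀ w, 4 ≤ (L w).card) →
          ∃ c : W → ℕ, (∀ w, c w ∈ L w) ∧
            ∀ (a b : W) (p : H.Walk a b) (t : ℕ), p.IsPath → 0 < t →
              p.length = 2 * t - 1 →
                ∃ i < t, c (p.getVert i) ≠ c (p.getVert (i + t))) := by
  intro V _ G
  obtain ⟨M, hM, hC⟩ := exists_M (Fintype.card ((V × V) × Bool))
  obtain ⟨n, hn⟩ : ∃ n, n = 9 * M + 200 := ⟨_, rfl⟩
  rw [← hn] at hC
  have e0 : ∀ u v : V, pt (n + 9) ((u, v), false) 0 = Sum.inl u := fun u v => pt_zero (by omega) _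
  have e1 : ∀ u v : V, pt (n + 9) ((u, v), false) (2 * (n + 9)) = Sum.inl v := fun u v => by
    rw [← pt_rv _ (j := 0) (by omega), pt_zero (by omega)]; rfl
  have inj : ∀ u v : V, u ≠ v → ∀ j ≤ 2 * (n + 9), ∀ k ≤ 2 * (n + 9),
      pt (n + 9) ((u, v), false) j = pt (n + 9) ((u, v), false) k → j = k := by
    intro u v huv j hj k hk h
    by_cases h1 : 0 < j ∧ j < 2 * (n + 9)
    · exact (pt0_inj h1.1 h1.2 h).2
    by_cases h2 : 0 < k ∧ k < 2 * (n + 9)
    · exact (pt0_inj h2.1 h2.2 h.symm).2.symm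
    by_contra hjk
    have : (j = 0 ∧ k = 2 * (n + 9)) ∨ (k = 0 ∧ j = 2 * (n + 9)) := by omega
    rcases this with ⟨rfl, rfl⟩ | ⟨rfl, rfl⟩ <;> rw [e0, e1] at h
    · exact huv (Sum.inl.inj h)
    · exact huv (Sum.inl.inj h).symm
  have hP : ∀ u v : V, G.Adj u v → ∃ p : (SG V (n + 9)).Walk (Sum.inl u) (Sum.inl v),
      p.support = (List.range (2 * (n + 9) + 1)).map (pt (n + 9) ((u, v), false)) :=
    fun u v h => walk_of (SG V (n + 9)) (pt (n + 9) ((u, v), false)) _ (fun i hi => ⟨fun h' => by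
      have := inj u v h.ne i (by omega) (i + 1) (by omega) h'
      omega, _, i, hi, rfl, rfl⟩) _ _ (e0 u v) (e1 u v)
  choose P hP using hP
  have mem : ∀ u v h w, w ∈ (P u v h).support → w = Sum.inl u ∨ w = Sum.inl v ∨
      ∃ j, 0 < j ∧ j < 2 * (n + 9) ∧ w = pt0 (n + 9) (u, v) j := by
    intro u v h w hw
    rw [hP] at hw
    obtain ⟨j, hj, rfl⟩ := List.mem_map.mp hw
    have := List.mem_range.mp hj
    by_cases h1 : j = 0
    · left; rw [h1, e0]
    by_cases h2 : j = 2 * (n + 9)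
    · right; left; rw [h2, e1]
    · exact Or.inr (Or.inr ⟨j, by omega, by omega, rfl⟩)
  refine ⟨SV V (n + 9), inferInstance, SG V (n + 9), Sum.inl, P, Sum.inl_injective, ?_, ?_, ?_, ?_⟩
  · intro u v h
    rw [SimpleGraph.Walk.isPath_def, hP]
    refine List.Nodup.map_on (fun j hj k hk h' => ?_) List.nodup_range
    have h1 := List.mem_range.mp hj
    have h2 := List.mem_range.mp hk
    exact inj u v h.ne j (by omega) k (by omega) h'
  · intro u v h x hx
    rcases mem u v h _ hx with h1 | h1 | ⟨j, h1, h2, h3⟩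
    · exact Or.inl (Sum.inl.inj h1)
    · exact Or.inr (Sum.inl.inj h1)
    · have := pt_inl (x := ((u, v), false)) h2 h3.symm
      omega
  · intro u v h u' v' h' w h1 h2
    rcases mem u v h _ h1 with a | a | ⟨j, a1, a2, a3⟩
    · exact Or.inl ⟨_, a.symm⟩
    · exact Or.inl ⟨_, a.symm⟩
    rcases mem u' v' h' _ h2 with b | b | ⟨k, b1, b2, b3⟩
    · exact Or.inl ⟨_, b.symm⟩
    · exact Or.inl ⟨_, b.symm⟩
    · have := (pt0_inj a1 a2 (a3.symm.trans b3)).1
      exact Or.inr (Or.inl (Prod.mk.inj this))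
  · intro L hL
    have h3 := fun q : V × V => three_colours (L (pt (n + 9) (q, false) (n + 8)))
      (L (pt (n + 9) (q, false) (n + 9))) (L (pt (n + 9) (q, true) (n + 8))) (hL _) (hL _) (hL _)
    choose c hc e he d hd hce hcd hed using h3
    have hne : ∀ v : V, ∃ x, x ∈ L (Sum.inl v) :=
      fun v => card_pos.mp (by have := hL (Sum.inl v); omega)
    choose a ha using hne
    obtain ⟨cc, k1, k2⟩ : ∃ cc : (V × V) × Bool → ℕ, (∀ q, cc (q, false) = c q) ∧
      ∀ q, cc (q, true) = d q := ⟨fun δ => bif δ.2 then d δ.1 else c δ.1, fun _ => rfl, fun _ => rfl⟩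
    have m1 : ∀ δ, cc δ ≠ e δ.1 := by
      rintro ⟨q, _ | _⟩
      · rw [k1]; exact hce q
      · rw [k2]; exact (hed q).symm
    have m2 : ∀ δ, cc δ ≠ cc (rv δ) := by
      rintro ⟨q, _ | _⟩
      · show cc (q, false) ≠ cc (q, true)
        rw [k1, k2]; exact hcd q
      · show cc (q, true) ≠ cc (q, false)
        rw [k1, k2]; exact (hcd q).symm
    obtain ⟨Y, hG, hD⟩ := all_words M (6 * M + 92) n (fun δ => a (org δ)) cc (fun δ => e δ.1)
      (fun δ => cc (rv δ)) m1 m2 (fun δ => (m1 (rv δ)).symm) (fun δ j => L (pt (n + 9) δ j))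
      (fun _ _ => hL _) hM (by omega) (by omega) hC
    obtain ⟨col, c0, c1, c2⟩ := colouring L hL a ha e he Y (fun δ => (hG δ).h0) (by
      intro δ j h1 h2
      by_cases h : j = n + 8
      · rw [h, (hG δ).hc]
        obtain ⟨q, _ | _⟩ := δ
        · rw [k1]; exact hc q
        · rw [k2]; exact hd q
      · exact (hG δ).mem j h1 (by omega))
    refine ⟨col, c0, fun u v p t hp ht hl => ?_⟩
    by_contra hcon
    push Not at hcon
    refine no_square hM hn a cc e m1 m2 _ Y hG hD col c1 c2 p.getVert t ht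
      (fun i hi => p.adj_getVert_succ (by omega)) (fun i hi i' hi' h => ?_) hcon
    exact hp.getVert_injOn (by simp only [Set.mem_ofPred_eq]; omega)
      (by simp only [Set.mem_ofPred_eq]; omega) h

end Pool.Agent.H21Z.NR
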