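import Pool.Agent.H21Z.NR.Count
import Pool.Agent.H21Z.NR.C2
import Pool.Agent.H21Z.NR.C3

set_option autoImplicit false

namespace Pool.Agent.H21Z.NR

open Finset

theorem sum_reidx (f : ℕ → ℝ) (hf : ∀ m, 0 ≤ f m) (q K lo : ℕ) (hK : K + lo ≤ q) :
    ∑ i ∈ Icc 6 K, f (q - i) ≤ ∑ m ∈ Icc lo (q - 6), f m := by
  classical
  rw [← sum_image (s := Icc 6 K) (g := fun i => q - i) (f := f)]
  · refine sum_le_sum_of_subset_of_nonneg (fun m hm => ?_) (fun m _ _ => hf m)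
    obtain ⟨i, hi, rfl⟩ := mem_image.mp hm
    have := mem_Icc.mp hi
    exact mem_Icc.mpr ⟨by omega, by omega⟩
  · intro i hi j hj hij
    have h1 := mem_Icc.mp (mem_coe.mp hi)
    have h2 := mem_Icc.mp (mem_coe.mp hj)
    simp only at hij
    omega

namespace Proc

variable (P : Proc)

theorem step0 (h0 : 0 < W (P.tab 0) (P.sg P.w0)) (p : ℕ) {num den : ℕ} (hden : 0 < den)
    (hchk : chk (P.tab p) (P.tab (p + 1)) num den 4 4 (P.pair (p + 1)) = true)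
    (hcard : 4 ≤ (P.L (p + 1)).card) (hX : ∀ w, P.X (p + 1) w = ∅)
    (lam : ℕ → ℝ)
    (hlam : ∀ i, 6 ≤ i → 2 * i ≤ p + 2 → 0 ≤ lam i ∧ ∀ s : St, 0 < W (P.tab (p + 1 - i)) s →
      (W (P.tab (p + 1)) s : ℝ) ≤ lam i * W (P.tab (p + 1 - i)) s)
    {ι : Type} (Ev : Finset ι) (m : ι → ℕ) (F : ι → (ℕ → ℕ) → (ℕ → ℕ)) (mu : ι → ℝ)
    (hmu : ∀ e ∈ Ev, 0 ≤ mu e)
    (hEx : ∀ w ∈ P.S p, ∀ u, P.Ex (p + 1) (cs u w) → ∃ e ∈ Ev, ∃ v ∈ P.S (m e),
      cs u w = F e v ∧ P.wt (p + 1) (cs u w) ≤ mu e * P.wt (m e) v) :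
    (num : ℝ) / den * P.T p - ∑ i ∈ Icc 6 ((p + 2) / 2), lam i * P.T (p + 1 - i) -
      ∑ e ∈ Ev, mu e * P.T (m e) ≤ P.T (p + 1) :=
  P.step h0 p hden hchk (fun w _ => by rw [hX w, sdiff_empty, Bool.cond_self]; exact hcard)
    lam hlam Ev m F mu hmu hEx

end Proc

/-- The six last local inequalities. -/
theorem chk_term (j : ℕ) (hj : j < 5) : chk (3 + (j + 1)) (3 + j) 1 1 4 4 true = true := by
  interval_cases j
  · exact c_t1
  · exact c_t2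
  · exact c_t3
  · exact c_t4
  · exact c_t5

/-- The comparison constants of the last tables with the stationary table. -/
noncomputable def lamT (j : ℕ) : ℝ :=
  if j = 0 then 1 else if j = 1 then 22 / 10 else if j = 2 then 45 / 10 else
  if j = 3 then 83 / 10 else if j = 4 then 16 else 30

theorem lamT_nonneg (j : ℕ) : 0 ≤ lamT j := by unfold lamT; split_ifs <;> norm_num

theorem lamT_le (j : ℕ) (hj : j ≤ 5) (s : St) (h : 0 < W 1 s) :
    (W (3 + j) s : ℝ) ≤ lamT j * W 1 s := by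
  obtain ⟨-, -, -, -, -, h3, h4⟩ := rel_facts s
  obtain ⟨a1, a2, a3, a4, a5⟩ := h4 h
  have b0 : (W 3 s : ℝ) ≤ W 1 s := by exact_mod_cast h3
  have b1 : (10 : ℝ) * W 4 s ≤ 22 * W 1 s := by exact_mod_cast a1
  have b2 : (10 : ℝ) * W 5 s ≤ 45 * W 1 s := by exact_mod_cast a2
  have b3 : (10 : ℝ) * W 6 s ≤ 83 * W 1 s := by exact_mod_cast a3
  have b4 : (W 7 s : ℝ) ≤ 16 * W 1 s := by exact_mod_cast a4
  have b5 : (W 8 s : ℝ) ≤ 30 * W 1 s := by exact_mod_cast a5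
  interval_cases j <;> simp [lamT] <;> linarith

theorem W3_le (s : St) : (W 3 s : ℝ) ≤ 2051 := by
  obtain ⟨-, h1, h2, -, -, h3, -⟩ := rel_facts s
  exact_mod_cast (h3.trans (h1.trans h2))

end Pool.Agent.H21Z.NR
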